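import Pool.Agent.P.MP_d05361_an.C.Main

/-
Transfer of the characterisation to holomorphic functions on the disc.
-/

set_option autoImplicit false

namespace Pool.Agent.P.MP_d05361_an.C

open scoped ENNReal InnerProductSpace ComplexConjugate Classical Nat
open Finset Filter Topology Metric Polynomial MeasureTheory

lemma nsq_dil (f : ℂ → ℂ) {r : ℝ} (h0 : 0 < r) (h1 : r ≤ 1) :
    nsq (fun z => f (r • z)) ≤ ENNReal.ofReal (r ^ 2)⁻¹ * nsq f := by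
  unfold nsq
  rw [mul_left_comm, ← lintegral_indicator measurableSet_ball,
    ← lintegral_indicator measurableSet_ball]
  refine mul_le_mul_right ?_ _
  have h2 := lintegral_map_equiv (μ := volume) ((ball (0 : ℂ) 1).indicator fun z => ‖f z‖ₑ ^ 2)
    (MeasurableEquiv.smul₀ r h0.ne')
  rw [MeasurableEquiv.coe_smul₀, Measure.map_addHaar_smul _ h0.ne', lintegral_smul_measure,
    Complex.finrank_real_complex, abs_of_pos (by positivity), smul_eq_mul] at h2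
  rw [h2]
  refine lintegral_mono fun z => ?_
  by_cases hz : z ∈ ball (0 : ℂ) 1
  · have h3 : r • z ∈ ball (0 : ℂ) 1 := by
      rw [mem_ball_zero_iff] at hz ⊢
      rw [norm_smul, Real.norm_of_nonneg h0.le]
      nlinarith [norm_nonneg z]
    rw [Set.indicator_of_mem hz, Set.indicator_of_mem h3]
  · rw [Set.indicator_of_notMem hz]; exact zero_le

lemma Phi_surj {f : ℂ → ℂ} (hf : DifferentiableOn ℂ f (ball 0 1)) (hn : nsq f < ⊤) :
    ∃ x : E, Set.EqOn f (Phi x) (ball 0 1) := by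
  obtain ⟨a, ha⟩ : ∃ a : ℕ → ℂ, ∀ z ∈ ball (0 : ℂ) 1, HasSum (fun n => a n * z ^ n) (f z) :=
    ⟨fun n => (n ! : ℂ)⁻¹ * iteratedDeriv n f 0, fun z hz =>
      (Complex.hasSum_taylorSeries_on_ball hf hz).congr_fun fun n => by simp; ring⟩
  have hs : ∀ n : ℕ, (1 : ℝ) ≤ √(n + 1) := fun n =>
    Real.one_le_sqrt.2 (le_add_of_nonneg_left (by positivity))
  have hm : ∀ (n : ℕ) (c z : ℂ), c / √(n + 1) * mono n z = c * z ^ n := fun n c z => by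
    have : ((√(n + 1) : ℝ) : ℂ) ≠ 0 := Complex.ofReal_ne_zero.2 (by linarith [hs n])
    rw [mono]
    field_simp
  have key : ∀ N, ∀ r ∈ Set.Ioo (0 : ℝ) 1,
      ∑ n ∈ range N, ‖a n * r ^ n / √(n + 1)‖ ^ 2 ≤ (r ^ 2)⁻¹ * (nsq f).toReal := by
    intro N r hr
    have h1 : (r : ℂ) ∈ ball (0 : ℂ) 1 := by
      rw [mem_ball_zero_iff, Complex.norm_real, Real.norm_of_nonneg hr.1.le]; exact hr.2
    have h2 : Memℓp (fun n : ℕ => a n * r ^ n / √(n + 1)) 1 := by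
      refine memℓp_gen ?_
      refine Summable.of_nonneg_of_le (fun _ => by positivity) (fun n => ?_) (ha r h1).summable.norm
      rw [ENNReal.toReal_one, Real.rpow_one, norm_div, Complex.norm_real,
        Real.norm_of_nonneg (Real.sqrt_nonneg _)]
      exact div_le_self (norm_nonneg _) (hs n)
    let x : E := ⟨_, h2.of_exponent_ge one_le_two⟩
    have h3 : nsq (fun z => f (r • z)) = ‖x‖ₑ ^ 2 := nsq_of_eqOn fun z hz => by
      have h4 : r • z ∈ ball (0 : ℂ) 1 := by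
        rw [mem_ball_zero_iff] at hz ⊢
        rw [norm_smul, Real.norm_of_nonneg hr.1.le]
        nlinarith [norm_nonneg z, hr.1, hr.2]
      refine (ha _ h4).tsum_eq.symm.trans (tsum_congr fun n => ?_)
      change _ = a n * r ^ n / √(n + 1) * mono n z
      rw [hm, Complex.real_smul, mul_pow, mul_assoc]
    have h4 := nsq_dil f hr.1 hr.2.le
    rw [h3] at h4
    have h5 := ENNReal.toReal_mono (ENNReal.mul_ne_top ENNReal.ofReal_ne_top hn.ne) h4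
    rw [ENNReal.toReal_mul, ENNReal.toReal_ofReal (by positivity), ENNReal.toReal_pow,
      toReal_enorm, norm_sq_eq_tsum] at h5
    exact ((summable_sq x).sum_le_tsum _ fun _ _ => by positivity).trans h5
  have h1 : ∀ N, ∑ n ∈ range N, ‖a n / √(n + 1)‖ ^ 2 ≤ (nsq f).toReal := fun N => by
    have c1 : Continuous fun r : ℝ => ∑ n ∈ range N, ‖a n * r ^ n / √(n + 1)‖ ^ 2 := by fun_prop
    have c2 : ContinuousAt (fun r : ℝ => (r ^ 2)⁻¹ * (nsq f).toReal) 1 := by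
      fun_prop (disch := norm_num)
    have h2 := le_of_tendsto_of_tendsto (b := 𝓝[<] (1 : ℝ))
      ((c1.tendsto 1).mono_left nhdsWithin_le_nhds) (c2.tendsto.mono_left nhdsWithin_le_nhds)
      (mem_of_superset (Ioo_mem_nhdsLT one_pos) (key N))
    simpa using h2
  refine ⟨⟨fun n => a n / √(n + 1), memℓp_gen ?_⟩, fun z hz => ?_⟩
  · simpa using summable_of_sum_range_le (fun _ => by positivity) h1
  · exact (ha z hz).tsum_eq.symm.trans (tsum_congr fun n => (hm n _ _).symm)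

/-- Bergman functions -/
def Berg (f : ℂ → ℂ) : Prop := DifferentiableOn ℂ f (ball 0 1) ∧ nsq f < ⊤

/-- invariant subspaces -/
def IsInv (I : Submodule ℂ (ℂ → ℂ)) : Prop :=
  (∀ f ∈ I, Berg f) ∧
  (∀ f, Berg f → (∀ ε : ℝ≥0∞, 0 < ε → ∃ g ∈ I, nsq (f - g) < ε) → f ∈ I) ∧
  (∀ f ∈ I, (fun z => z * f z) ∈ I)

/-- extremal functions -/
def IsExt (I : Submodule ℂ (ℂ → ℂ)) (H : ℂ → ℂ) : Prop :=
  H ∈ I ∧ nsq H ≤ 1 ∧ (∀ f ∈ I, nsq f ≤ 1 → (f 0).re ≤ (H 0).re) ∧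
  (∀ f ∈ I, nsq f ≤ 1 → (f 0).re = (H 0).re → Set.EqOn f H (ball 0 1))

/-- index one -/
def Idx (J : Submodule ℂ (ℂ → ℂ)) : Prop :=
  ∀ f ∈ J, f 0 = 0 → ∃ g ∈ J, ∀ z ∈ ball (0 : ℂ) 1, f z = z * g z

lemma isInv_lift {M : Submodule ℂ E} (h : Inv M) : IsInv (lift M) :=
  ⟨fun _ hf => lift_bergman hf, fun _ hf => lift_closed h.closed hf,
    fun _ hf => lift_shift h.shift hf⟩

lemma Phi_ext {x y : E} (h : Set.EqOn (Phi x) (Phi y) (ball 0 1)) : x = y :=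
  sub_eq_zero.1 (Phi_inj fun z hz => by rw [Phi_sub _ _ hz, h hz, sub_self])

lemma mem_of_Phi {M : Submodule ℂ E} {x : E} (h : Phi x ∈ lift M) : x ∈ M := by
  obtain ⟨y, hy, he⟩ := h
  rwa [Phi_ext he]

lemma exists_down {I : Submodule ℂ (ℂ → ℂ)} (h : IsInv I) : ∃ M, Inv M ∧ I = lift M := by
  obtain ⟨h1, h2, h3⟩ := h
  have hc : ∀ f, ∀ g ∈ I, Set.EqOn f g (ball 0 1) → f ∈ I := fun f g hg he =>
    h2 f ⟨(h1 g hg).1.congr he, (nsq_congr he).trans_lt (h1 g hg).2⟩ fun ε hε => ⟨g, hg, by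
      rw [nsq_of_eqOn (x := 0) fun z hz => by rw [Pi.sub_apply, he hz, sub_self, Phi_zero]]
      simpa using hε⟩
  let M : Submodule ℂ E :=
    { carrier := {x | Phi x ∈ I}
      add_mem' := fun hx hy => hc _ _ (I.add_mem hx hy) fun z hz => Phi_add _ _ hz
      zero_mem' := hc _ _ I.zero_mem fun z _ => Phi_zero z
      smul_mem' := fun c x hx => hc _ _ (I.smul_mem c hx) fun z _ => Phi_smul c x z }
  refine ⟨M, ⟨isClosed_of_closure_subset fun x hx => ?_, fun x hx =>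
    hc _ _ (h3 _ hx) fun z hz => Phi_T x hz⟩, le_antisymm (fun f hf => ?_) ?_⟩
  · refine h2 _ (lift_bergman (Phi_mem_lift (M := ⊤) trivial)) fun ε hε => ?_
    have h4 : Continuous fun y : E => ‖x - y‖ₑ ^ 2 :=
      ENNReal.continuous_pow 2 |>.comp (by fun_prop)
    obtain ⟨y, hy, hy'⟩ := mem_closure_iff.1 hx _ (isOpen_lt h4 continuous_const)
      (show ‖x - x‖ₑ ^ 2 < ε by simpa using hε)
    exact ⟨_, hy', (nsq_of_eqOn (x := x - y) fun z hz => (Phi_sub _ _ hz).symm).trans_lt hy⟩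
  · obtain ⟨x, hx⟩ := Phi_surj (h1 f hf).1 (h1 f hf).2
    exact ⟨x, hc _ _ hf hx.symm, hx⟩
  · rintro f ⟨x, hx, he⟩
    exact hc _ _ hx he

lemma idx_lift {M : Submodule ℂ E} : Idx (lift M) ↔ One M := by
  refine ⟨fun h x hx h0 => ?_, fun h f ⟨x, hx, he⟩ h0 => ?_⟩
  · obtain ⟨g, ⟨y, hy, hg⟩, he⟩ := h _ (Phi_mem_lift hx) (by rwa [Phi_zero_apply])
    exact ⟨y, hy, Phi_ext fun z hz => by rw [he z hz, hg hz, Phi_T _ hz]⟩
  · obtain ⟨y, hy, rfl⟩ := h x hx (by rwa [← Phi_zero_apply, ← he zero_mem_ball])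
    exact ⟨_, Phi_mem_lift hy, fun z hz => by rw [he hz, Phi_T _ hz]⟩

lemma exists_ker_lift {M : Submodule ℂ E} (h : Inv M) (h0 : ∃ f ∈ lift M, f 0 ≠ 0) :
    ∃ G, IsKer M G := by
  obtain ⟨f, ⟨x, hx, he⟩, h0⟩ := h0
  exact exists_isKer h.closed hx (by rwa [← Phi_zero_apply, ← he zero_mem_ball])

lemma ext_eq {M : Submodule ℂ E} {G : E} (hG : IsKer M G) {H : ℂ → ℂ} (h : IsExt (lift M) H) :
    Set.EqOn H (Phi G) (ball 0 1) := by
  obtain ⟨h1, h2, h3, h4⟩ := lift_extremal hG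
  exact h4 H h.1 h.2.1 (le_antisymm (h3 H h.1 h.2.1) (h.2.2.1 _ h1 h2))

lemma nsq_poly {G : E} {H : ℂ → ℂ} (he : Set.EqOn H (Phi G) (ball 0 1)) (h : ℂ[X]) :
    nsq (fun z => H z * h.eval z) = ‖aeval T h G‖ₑ ^ 2 :=
  nsq_of_eqOn fun z hz => by rw [Phi_aeval _ _ hz, mul_comm, ← he hz]

lemma sq_le {x y : E} : ‖x‖ₑ ^ 2 ≤ ‖y‖ₑ ^ 2 ↔ ‖x‖ ≤ ‖y‖ := by
  rw [ENNReal.pow_le_pow_left_iff two_ne_zero, enorm_le_iff_norm_le]

theorem tfae (J : Submodule ℂ (ℂ → ℂ)) (hJ : IsInv J) (h0 : ∃ f ∈ J, f 0 ≠ 0) :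
    (∃ HJ, IsExt J HJ) ∧ ∀ HJ, IsExt J HJ → List.TFAE [Idx J,
      ∀ I HI, IsInv I → I ≤ J → (∃ f ∈ I, f 0 ≠ 0) → IsExt I HI → ∀ h : ℂ[X],
        nsq (fun z => HJ z * h.eval z) ≤ nsq (fun z => HI z * h.eval z),
      ∀ I HI, IsInv I → Idx I → I ≤ J → (∃ f ∈ I, f 0 ≠ 0) → IsExt I HI → ∀ h : ℂ → ℂ,
        DifferentiableOn ℂ h (ball 0 1) → (fun z => HI z * h z) ∈ I →
        nsq (fun z => HJ z * h z) ≤ nsq (fun z => HI z * h z),
      ∀ I HI, IsInv I → Idx I → I ≤ J → (∃ f ∈ I, f 0 ≠ 0) → IsExt I HI → ∀ h : ℂ[X],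
        nsq (fun z => HJ z * h.eval z) ≤ nsq (fun z => HI z * h.eval z)] := by
  obtain ⟨N, hN, rfl⟩ := exists_down hJ
  obtain ⟨H, hH⟩ := exists_ker_lift hN h0
  refine ⟨⟨_, lift_extremal hH⟩, fun HJ hHJ => ?_⟩
  have eH := ext_eq hH hHJ
  have bad : ¬ Idx (lift N) → ∃ (I : Submodule ℂ (ℂ → ℂ)) (HI : ℂ → ℂ) (h : ℂ[X]), IsInv I ∧
      Idx I ∧ I ≤ lift N ∧ (∃ f ∈ I, f 0 ≠ 0) ∧ IsExt I HI ∧ (fun z => HI z * h.eval z) ∈ I ∧
      ¬ nsq (fun z => HJ z * h.eval z) ≤ nsq (fun z => HI z * h.eval z) := fun h => by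
    obtain ⟨G, h1, h2, p, h3⟩ := fail hN hH (mt idx_lift.2 h)
    refine ⟨lift (cyc G), Phi G, p, isInv_lift (inv_cyc G), idx_lift.2 (one_cyc (ker_zero_ne h2)),
      lift_mono (hN.cyc_le h1), ⟨_, Phi_mem_lift h2.mem, by
        rw [Phi_zero_apply]; exact ker_zero_ne h2⟩, lift_extremal h2,
      ⟨_, aeval_mem_cyc G p, fun z hz => by rw [Phi_aeval _ _ hz, mul_comm]⟩, ?_⟩
    rw [nsq_poly eH, nsq_poly fun _ _ => rfl, sq_le]
    exact h3.not_ge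
  tfae_have 1 → 2 := fun h I HI hI hIJ hI0 hHI p => by
    obtain ⟨M, hM, rfl⟩ := exists_down hI
    obtain ⟨G, hG⟩ := exists_ker_lift hM hI0
    rw [nsq_poly eH, nsq_poly (ext_eq hG hHI), sq_le]
    exact dom_of_one hM hN (fun x hx => mem_of_Phi (hIJ (Phi_mem_lift hx))) (idx_lift.1 h) hG hH p
  tfae_have 2 → 4 := fun h I HI hI _ => h I HI hI
  tfae_have 4 → 1 := fun h => by
    by_contra h1
    obtain ⟨I, HI, p, a1, a2, a3, a4, a5, -, a7⟩ := bad h1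
    exact a7 (h I HI a1 a2 a3 a4 a5 p)
  tfae_have 1 → 3 := fun h I HI hI hI1 hIJ hI0 hHI F hF hm => by
    obtain ⟨M, hM, rfl⟩ := exists_down hI
    obtain ⟨G, hG⟩ := exists_ker_lift hM hI0
    obtain ⟨x, hx, he⟩ := hm
    obtain ⟨y, hy, hy'⟩ := (dom_of_one hM hN (fun x hx => mem_of_Phi (hIJ (Phi_mem_lift hx)))
      (idx_lift.1 h) hG hH).ext (ker_ne hG) (wander hM hG (idx_lift.1 hI1) hx) hF
      fun z hz => by rw [← he hz, ← ext_eq hG hHI hz]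
    rw [nsq_of_eqOn he, nsq_of_eqOn (x := y) fun z hz => by rw [hy' z hz, ← eH hz], sq_le]
    exact hy
  tfae_have 3 → 1 := fun h => by
    by_contra h1
    obtain ⟨I, HI, p, a1, a2, a3, a4, a5, a6, a7⟩ := bad h1
    exact a7 (h I HI a1 a2 a3 a4 a5 _ p.differentiable.differentiableOn a6)
  tfae_finish

lemma zero_set {α : Finset ℂ} (hα : ∀ a ∈ α, a ∈ ball (0 : ℂ) 1 ∧ a ≠ 0)
    {I : Submodule ℂ (ℂ → ℂ)} (hI : ∀ f, f ∈ I ↔ Berg f ∧ ∀ a ∈ α, f a = 0) :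
    IsInv I ∧ Idx I ∧ ∃ f ∈ I, f 0 ≠ 0 := by
  have h1 : I = lift (zs α) := by
    refine le_antisymm (fun f hf => ?_) ?_
    · obtain ⟨⟨h2, h3⟩, h4⟩ := (hI f).1 hf
      obtain ⟨x, hx⟩ := Phi_surj h2 h3
      exact ⟨x, fun a ha hb => by rw [← hx hb, h4 a ha], hx⟩
    · rintro f ⟨x, hx, he⟩
      exact (hI f).2 ⟨lift_bergman ⟨x, hx, he⟩, fun a ha => by
        rw [he (hα a ha).1, hx a ha (hα a ha).1]⟩
  have h2 : aeval T (pz α) (e 0) 0 ≠ 0 := by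
    rw [← Phi_zero_apply, Phi_poly _ zero_mem_ball, ne_eq, eval_pz]
    exact fun h => (hα 0 h).2 rfl
  rw [h1]
  refine ⟨isInv_lift (inv_zs α), idx_lift.2 ?_, _, Phi_mem_lift (pz_mem α), by
    rwa [Phi_zero_apply]⟩
  rw [le_antisymm (zs_le_cyc α fun a ha => (hα a ha).1) ((inv_zs α).cyc_le (pz_mem α))]
  exact one_cyc h2

theorem finite_sets (α β : Finset ℂ) (I J : Submodule ℂ (ℂ → ℂ)) (HI HJ : ℂ → ℂ)
    (hα : ∀ a ∈ α, a ∈ ball (0 : ℂ) 1 ∧ a ≠ 0) (hβ : ∀ a ∈ β, a ∈ ball (0 : ℂ) 1 ∧ a ≠ 0)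
    (hI : ∀ f, f ∈ I ↔ Berg f ∧ ∀ a ∈ α, f a = 0) (hJ : ∀ f, f ∈ J ↔ Berg f ∧ ∀ a ∈ β, f a = 0)
    (hIJ : I ≤ J) (h1 : IsExt I HI) (h2 : IsExt J HJ) (h : ℂ → ℂ) (hh : Berg h) :
    nsq (fun z => HJ z * h z) ≤ nsq (fun z => HI z * h z) := by
  obtain ⟨a1, a2, a3⟩ := zero_set hα hI
  obtain ⟨b1, b2, b3⟩ := zero_set hβ hJ
  rcases eq_or_ne (nsq fun z => HI z * h z) ⊤ with h3 | h3
  · rw [h3]; exact le_top
  · have h4 := (((tfae J b1 b3).2 HJ h2).out 0 2).1 b2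
    exact h4 I HI a1 a2 hIJ a3 h1 h hh.1
      ((hI _).2 ⟨⟨(a1.1 _ h1.1).1.mul hh.1, h3.lt_top⟩, fun a ha => by
        rw [((hI _).1 h1.1).2 a ha, zero_mul]⟩)

end Pool.Agent.P.MP_d05361_an.C
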