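import Mathlib

/-
Positive kernels whose reciprocal has one negative square.
-/

set_option autoImplicit false

namespace Pool.Agent.P.MP_d05361_an.C

open scoped ComplexConjugate ComplexOrder
open Finset Filter Topology

variable {X : Type}

/-- positive semidefinite kernels -/
structure PS (K : X → X → ℂ) : Prop where
  herm : ∀ z w, K w z = conj (K z w)
  pos : ∀ (ι : Type) [Fintype ι] (x : ι → X) (c : ι → ℂ),
    0 ≤ ∑ i, ∑ j, conj (c i) * K (x i) (x j) * c j

namespace PS

variable {K L : X → X → ℂ}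

lemma congr (h : PS K) (e : ∀ z w, L z w = K z w) : PS L := by
  have : L = K := funext fun z => funext fun w => e z w
  rwa [this]

lemma comp {Y : Type} (h : PS K) (f : Y → X) : PS fun z w => K (f z) (f w) :=
  ⟨fun _ _ => h.herm _ _, fun ι _ x c => h.pos ι (fun i => f (x i)) c⟩

lemma mat (h : PS K) {ι : Type} [Fintype ι] (x : ι → X) :
    (Matrix.of fun i j => K (x i) (x j)).PosSemidef := by
  refine Matrix.PosSemidef.of_dotProduct_mulVec_nonneg ?_ fun c => ?_
  · ext i j
    simp [Matrix.conjTranspose_apply, h.herm (x j) (x i)]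
  · have := h.pos ι x c
    simpa [dotProduct, Matrix.mulVec, mul_sum, mul_assoc] using this

lemma mul (h : PS K) (h' : PS L) : PS fun z w => K z w * L z w := by
  refine ⟨fun z w => by rw [h.herm z w, h'.herm z w, map_mul], fun ι _ x c => ?_⟩
  have := ((h.mat x).hadamard (h'.mat x)).dotProduct_mulVec_nonneg c
  simpa [dotProduct, Matrix.mulVec, mul_sum, mul_assoc] using this

lemma add (h : PS K) (h' : PS L) : PS fun z w => K z w + L z w := by
  refine ⟨fun z w => by rw [h.herm z w, h'.herm z w, map_add], fun ι _ x c => ?_⟩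
  simp only [mul_add, add_mul, sum_add_distrib]
  exact add_nonneg (h.pos ι x c) (h'.pos ι x c)

lemma rank {r : ℂ} (hr : 0 ≤ r) (a : X → ℂ) : PS fun z w => r * (a z * conj (a w)) := by
  have h0 : conj r = r := Complex.conj_eq_iff_im.2 (Complex.nonneg_iff.1 hr).2.symm
  refine ⟨fun z w => by simp [h0, mul_comm], fun ι _ x c => ?_⟩
  have : ∑ i, ∑ j, conj (c i) * (r * (a (x i) * conj (a (x j)))) * c j =
      r * (star (∑ j, conj (a (x j)) * c j) * ∑ j, conj (a (x j)) * c j) := by
    rw [star_sum, sum_mul_sum, mul_sum]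
    refine sum_congr rfl fun i _ => ?_
    rw [mul_sum]
    refine sum_congr rfl fun j _ => ?_
    simp only [star_mul', RCLike.star_def, Complex.conj_conj]
    ring
  rw [this]
  exact mul_nonneg hr (star_mul_self_nonneg _)

lemma diag (h : PS K) (z : X) : 0 ≤ K z z := by
  simpa using h.pos Unit (fun _ => z) fun _ => 1

lemma shift (h : PS K) (l : X) (a : X → ℂ) :
    PS fun z w => K z w - a z * K l w - conj (a w) * K z l + a z * conj (a w) * K l l := by
  refine ⟨fun z w => ?_, fun ι _ x c => ?_⟩
  · simp only [map_add, map_sub, map_mul, Complex.conj_conj, ← h.herm]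
    ring
  · have := h.pos (Option ι) (fun i => i.elim l x) fun i => i.elim (-∑ j, conj (a (x j)) * c j) c
    simp only [Fintype.sum_option, Option.elim] at this
    refine this.trans_eq ?_
    simp only [map_neg, map_sum, map_mul, Complex.conj_conj, mul_add, add_mul, mul_sub, sub_mul,
      sum_add_distrib, sum_sub_distrib, neg_mul, mul_neg, neg_neg, sum_mul, mul_sum,
      sum_neg_distrib]
    have e1 : ∑ j, ∑ i, a (x i) * conj (c i) * K l l * (conj (a (x j)) * c j) =
        ∑ i, ∑ j, conj (c i) * (a (x i) * conj (a (x j)) * K l l) * c j := by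
      rw [sum_comm]
      exact sum_congr rfl fun i _ => sum_congr rfl fun j _ => by ring
    have e2 : ∑ j, ∑ i, a (x i) * conj (c i) * K l (x j) * c j =
        ∑ i, ∑ j, conj (c i) * (a (x i) * K l (x j)) * c j := by
      rw [sum_comm]
      exact sum_congr rfl fun i _ => sum_congr rfl fun j _ => by ring
    have e3 : ∑ i, ∑ j, conj (c i) * K (x i) l * (conj (a (x j)) * c j) =
        ∑ i, ∑ j, conj (c i) * (conj (a (x j)) * K (x i) l) * c j :=
      sum_congr rfl fun i _ => sum_congr rfl fun j _ => by ring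
    rw [e1, e2, e3]
    ring

lemma lim {F : ℕ → X → X → ℂ} (h : ∀ n, PS (F n))
    (hl : ∀ z w, Tendsto (fun n => F n z w) atTop (𝓝 (K z w))) : PS K := by
  refine ⟨fun z w => tendsto_nhds_unique (hl w z) ?_, fun ι _ x c => ?_⟩
  · simp only [fun n => (h n).herm z w]
    exact (Complex.continuous_conj.tendsto _).comp (hl z w)
  · refine ge_of_tendsto' (f := fun n => ∑ i, ∑ j, conj (c i) * F n (x i) (x j) * c j)
      (x := atTop) ?_ fun n => (h n).pos ι x c
    exact tendsto_finsetSum _ fun i _ => tendsto_finsetSum _ fun j _ =>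
      ((hl _ _).const_mul _).mul_const _

lemma cs (h : PS K) (z w : X) : 2 * ‖K z w‖ ≤ ‖K z z‖ + ‖K w w‖ := by
  obtain ⟨c, hc, hc'⟩ := Complex.exists_norm_eq_mul_self (K z w)
  have h1 := (h.shift w fun _ => conj c).diag z
  have h2 : conj c * K w z = ‖K z w‖ := by
    rw [h.herm z w, ← map_mul, ← hc', Complex.conj_ofReal]
  have h3 : conj c * c = 1 := by rw [Complex.conj_mul', hc]; simp
  simp only [Complex.conj_conj] at h1
  rw [h2, ← hc', h3, one_mul, ← Complex.norm_of_nonneg' (h.diag z),
    ← Complex.norm_of_nonneg' (h.diag w)] at h1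
  norm_cast at h1
  linarith

lemma one : PS fun _ _ : X => (1 : ℂ) := (rank zero_le_one fun _ => 1).congr (by simp)

lemma pow (h : PS K) (n : ℕ) : PS fun z w => K z w ^ n := by
  induction n with
  | zero => exact one.congr (by simp)
  | succ n ih => exact (ih.mul h).congr fun z w => pow_succ _ _

lemma geom (h : PS K) (h1 : ∀ z w, ‖K z w‖ < 1) : PS fun z w => (1 - K z w)⁻¹ := by
  refine lim (F := fun n z w => ∑ i ∈ range n, K z w ^ i) (fun n => ?_) fun z w =>
    (hasSum_geometric_of_norm_lt_one (h1 z w)).tendsto_sum_nat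
  induction n with
  | zero => exact (rank le_rfl fun _ => 0).congr (by simp)
  | succ n ih => exact (ih.add (h.pow n)).congr fun z w => sum_range_succ _ _

end PS

/-- the kernel after one more zero -/
noncomputable def cut (K : X → X → ℂ) (l : X) (z w : X) : ℂ := K z w - K z l * K l w / K l l

/-- positive kernels without zeros whose reciprocal has one negative square -/
structure Good (K : X → X → ℂ) : Prop where
  ps : PS K
  ne : ∀ z w, K z w ≠ 0
  neg : ∃ (r : ℂ) (ψ : X → ℂ), 0 ≤ r ∧ PS fun z w => (K z w)⁻¹ + r * (ψ z * conj (ψ w))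

lemma pos_of {a : ℂ} (h : 0 ≤ a) (h0 : a ≠ 0) : 0 < a := lt_of_le_of_ne h h0.symm

lemma conj_of {a : ℂ} (h : 0 ≤ a) : conj a = a :=
  Complex.conj_eq_iff_im.2 (Complex.nonneg_iff.1 h).2.symm

lemma PS.cut {K : X → X → ℂ} (h : PS K) {l : X} (hl : K l l ≠ 0) : PS (cut K l) := by
  refine (h.shift l fun z => K z l / K l l).congr fun z w => ?_
  rw [C.cut, map_div₀, conj_of (h.diag l), ← h.herm]
  field_simp
  ring

theorem Good.step {K : X → X → ℂ} (h : Good K) (l : X) {Y : Type} (f : Y → X)
    (hf : ∀ z, cut K l (f z) (f z) ≠ 0) :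
    Good (fun z w => cut K l (f z) (f w)) ∧ ∀ o : Y, PS fun z w =>
      cut K l (f z) (f o) * cut K l (f o) (f w) / cut K l (f o) (f o) * K (f z) (f w) -
        K (f z) (f o) * K (f o) (f w) / K (f o) (f o) * cut K l (f z) (f w) := by
  obtain ⟨hK, hne, r, ψ, hr, hM⟩ := h
  have hd := fun z => conj_of (hK.diag z)
  have hcut := hK.cut (hne l l)
  obtain ⟨s, rfl⟩ : ∃ s : ℂ, r = s * conj s := by
    refine ⟨(Real.sqrt ‖r‖ : ℝ), ?_⟩
    rw [Complex.conj_ofReal, ← Complex.ofReal_mul, Real.mul_self_sqrt (norm_nonneg _),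
      Complex.norm_of_nonneg' hr]
  let N : X → X → ℂ := fun z w => K l l / (K z l * K l w) - (K z w)⁻¹
  let φ : X → ℂ := fun z => s * (ψ z - K l l / K z l * ψ l)
  have hV : PS fun z w => φ z * conj (φ w) - N z w := by
    refine (hM.shift l fun z => K l l / K z l).congr fun z w => ?_
    have := hne z l
    have := hne l w
    have := hne l l
    simp only [φ, N, map_sub, map_mul, map_div₀, hd, ← hK.herm]
    field_simp
    ring
  have hN : ∀ z w, cut K l z w = N z w * K z w * (K z l * K l w / K l l) := fun z w => by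
    have := hne z l
    have := hne l w
    have := hne l l
    have := hne z w
    simp only [N, cut]
    field_simp
  have hβ : PS fun z w => K z l * K l w / K l l :=
    (PS.rank (inv_nonneg.2 (hK.diag l)) fun z => K z l).congr fun z w => by
      rw [← hK.herm]; ring
  have hNh : ∀ z w, N w z = conj (N z w) := fun z w => by
    simp only [N, map_sub, map_mul, map_div₀, map_inv₀, hd, ← hK.herm]
    ring
  have hNp : ∀ z, 0 < N (f z) (f z) := fun z => by
    have h1 := pos_of (hcut.diag (f z)) (hf z)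
    rw [hN, mul_assoc] at h1
    exact (mul_pos_iff_of_pos_right (pos_of (mul_nonneg (hK.diag _) (hβ.diag _))
      (right_ne_zero_of_mul h1.ne'))).1 h1
  have hφ : ∀ z, 0 < φ (f z) * conj (φ (f z)) := fun z =>
    (hNp z).trans_le (sub_nonneg.1 (hV.diag (f z)))
  have hφ0 : ∀ z, φ (f z) ≠ 0 := fun z => left_ne_zero_of_mul (hφ z).ne'
  have hφ1 : ∀ z, conj (φ (f z)) ≠ 0 := fun z => right_ne_zero_of_mul (hφ z).ne'
  let u : Y → Y → ℂ := fun z w => 1 - N (f z) (f w) / (φ (f z) * conj (φ (f w)))
  have hu : PS u := ((hV.comp f).mul (PS.rank zero_le_one fun z => (φ (f z))⁻¹)).congr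
    fun z w => by
      have := hφ0 z
      have := hφ1 w
      simp only [u, map_inv₀]
      field_simp
  have hu1 : ∀ z, ‖u z z‖ < 1 := fun z => by
    have h1 : u z z < 1 := sub_lt_self _ (div_pos (hNp z) (hφ z))
    rw [← Complex.norm_of_nonneg' (hu.diag z)] at h1
    exact_mod_cast h1
  have hu2 : ∀ z w, ‖u z w‖ < 1 := fun z w => by linarith [hu.cs z w, hu1 z, hu1 w]
  have hN0 : ∀ z w, N (f z) (f w) ≠ 0 := fun z w e => by simpa [u, e] using hu2 z w
  refine ⟨⟨hcut.comp f, fun z w => ?_, K l l, fun z => (K (f z) l)⁻¹, hK.diag l, ?_⟩, fun o => ?_⟩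
  · rw [hN]
    exact mul_ne_zero (mul_ne_zero (hN0 z w) (hne _ _))
      (div_ne_zero (mul_ne_zero (hne _ _) (hne _ _)) (hne _ _))
  · refine ((hu.geom hu2).mul (PS.rank zero_le_one
      fun z => K l l / K (f z) l ^ 2 / φ (f z))).congr fun z w => ?_
    have := hne (f z) l
    have := hne l (f w)
    have := hne l l
    have := hne (f z) (f w)
    have := hφ0 z
    have := hφ1 w
    have h1 := hN0 z w
    have h2 : (K (f z) (f w))⁻¹ = K l l / (K (f z) l * K l (f w)) - N (f z) (f w) := by
      simp only [N]; ring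
    rw [hN, mul_inv, mul_inv, h2]
    simp only [u, sub_sub_cancel, map_div₀, map_pow, map_inv₀, hd, ← hK.herm]
    field_simp
    ring
  · have hR : PS fun z w => N (f z) (f o) * N (f o) (f w) / N (f o) (f o) - N (f z) (f w) := by
      refine (((hV.comp f).shift o fun z => φ (f z) / φ (f o)).add (PS.rank (hNp o).le
        fun z => φ (f z) / φ (f o) - N (f z) (f o) / N (f o) (f o))).congr fun z w => ?_
      have := hφ0 o
      have := hφ1 o
      have := hN0 o o
      simp only [map_sub, map_div₀, ← hNh]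
      field_simp
      ring
    refine ((hR.mul ((hK.mul hβ).comp f)).mul (PS.rank (inv_nonneg.2 (hK.diag (f o)))
      fun z => K (f z) (f o))).congr fun z w => ?_
    have := hne (f o) l
    have := hne l (f o)
    have := hne l l
    have := hne (f o) (f o)
    have := hN0 o o
    simp only [hN, ← hK.herm]
    field_simp

/-- the Bergman kernel -/
theorem good_bergman (f : X → ℂ) (hf : ∀ z, ‖f z‖ < 1) :
    Good fun z w => ((1 - f z * conj (f w)) ^ 2)⁻¹ := by
  have h1 : ∀ z w, ‖1 * (f z * conj (f w))‖ < 1 := fun z w => by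
    rw [one_mul, norm_mul, Complex.norm_conj]
    exact mul_lt_one_of_nonneg_of_lt_one_left (norm_nonneg _) (hf z) (hf w).le
  have h2 := (PS.rank zero_le_one f).geom h1
  refine ⟨(h2.mul h2).congr fun z w => by rw [one_mul, sq, mul_inv], fun z w => ?_, 2, f,
    by norm_num, (PS.one.add ((PS.rank zero_le_one f).pow 2)).congr fun z w => by
      rw [inv_inv]; ring⟩
  refine inv_ne_zero (pow_ne_zero _ (sub_ne_zero.2 fun e => ?_))
  simpa [← e] using h1 z w

end Pool.Agent.P.MP_d05361_an.C
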