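import Pool.Agent.P.MP_d05361_an.C.Syn

/-
Domination holds below a subspace exactly when the subspace has index one (shift level).
-/

set_option autoImplicit false

namespace Pool.Agent.P.MP_d05361_an.C

open scoped ENNReal InnerProductSpace ComplexConjugate ComplexOrder Classical
open Finset Filter Topology Metric Polynomial

lemma norm_pow_e (κ : ℝ) (N : ℕ) : κ * √(N + 1) * ‖(T ^ N) (e 0)‖ = κ := by
  rw [T_pow_e, norm_smul, norm_e, Complex.norm_real, Real.norm_of_nonneg (W_pos 0 N).le, W, mul_one,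
    mul_assoc, ← Real.sqrt_mul (by positivity)]
  push_cast
  rw [zero_add, zero_add, mul_one_div_cancel (by positivity), Real.sqrt_one, mul_one]

lemma ker_cyc {Z : Finset ℂ} (hZ : ∀ l ∈ Z, l ∈ ball (0 : ℂ) 1) {c : ℂ} (hc : c ≠ 0) :
    aeval T (C c * pz Z) (e 0) ∈ zs Z ∧ zs Z ≤ cyc (aeval T (C c * pz Z) (e 0)) := by
  refine ⟨by rw [ae_mul]; exact (inv_zs Z).aeval _ (pz_mem Z),
    (zs_le_cyc Z hZ).trans ((inv_cyc _).cyc_le ?_)⟩
  have := aeval_mem_cyc (aeval T (C c * pz Z) (e 0)) (C c⁻¹)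
  rwa [← ae_mul, ← mul_assoc, ← C_mul, inv_mul_cancel₀ hc, C_1, one_mul] at this

lemma exists_poly {H G : E} (h : G ∈ cyc H) {η : ℝ} (hη : 0 < η) :
    ∃ q : ℂ[X], ‖aeval T q H - G‖ ≤ η := by
  obtain ⟨p, hp⟩ := exists_seq h
  obtain ⟨n, hn⟩ := (hp.eventually (closedBall_mem_nhds G hη)).exists
  exact ⟨p n, mem_closedBall_iff_norm.1 hn⟩

lemma nested {H G : E} (hH : Wan H) (hG : Wan G) (hGH : G ∈ cyc H) {ε : ℝ} (hε : 0 < ε)
    (hε1 : ε ≤ 1) : ∃ H' G' : E, ‖H'‖ = 1 ∧ ‖G'‖ = 1 ∧ Dom H' G' ∧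
      1 ≤ (1 + ε) * (‖⟪H, H'⟫_ℂ‖ + ε) ∧ 1 ≤ (1 + ε) * (‖⟪G, G'⟫_ℂ‖ + ε) := by
  obtain ⟨d₁, η₀, hη₀, h₁⟩ := approx hG hε (c := ε / 32) (by positivity)
  set η₁ := min η₀ (ε / 2) with hη₁
  have p₁ : 0 < η₁ := by positivity
  obtain ⟨q, hq⟩ := exists_poly hGH (η := η₁ / 3) (by positivity)
  set s := min (ε / 2) (η₁ / (6 * (‖aeval T q‖ + 1))) with hs
  have p₂ : 0 < s := by positivity
  obtain ⟨d₂, η₂, hη₂, h₂⟩ := approx hH hε (c := s / 2) (by positivity)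
  set η₃ := min η₂ s with hη₃
  have p₃ : 0 < η₃ := by positivity
  obtain ⟨p, hp⟩ := exists_poly (mem_cyc_e H) (η := η₃ / 2) (by positivity)
  obtain ⟨N, t, c, δ, a, Z, hN, ht, hc, hδ, ha, ha', hZ, hlo, hup⟩ :=
    pert p p₂ (η := η₃ / 2) (by positivity) (d₂ + 1) {0}
  have p₄ : 0 < δ := by rw [hδ]; positivity
  obtain ⟨N', t', c', δ', b, Z', hN', ht', hc', hδ', hb, hb', hZ', hlo', -⟩ :=
    pert q (κ := ε / (4 * δ)) (by positivity) (η := η₁ / 6) (by positivity) (N + d₁ + 1)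
      (insert 0 Z)
  have p₅ : 0 < δ' := by rw [hδ']; positivity
  have z₁ : ∀ l ∈ Z, l ∈ ball (0 : ℂ) 1 ∧ l ≠ 0 := fun l hl =>
    ⟨(hZ l hl).1, by simpa using (hZ l hl).2⟩
  have z₂ : ∀ l ∈ Z', l ∈ ball (0 : ℂ) 1 ∧ l ≠ 0 := fun l hl =>
    ⟨(hZ' l hl).1, fun h => (hZ' l hl).2 (h ▸ mem_insert_self _ _)⟩
  have z₃ : ∀ l ∈ Z' ∪ Z, l ∈ ball (0 : ℂ) 1 ∧ l ≠ 0 := fun l hl =>
    (mem_union.1 hl).elim (z₂ l) (z₁ l)
  obtain ⟨H', hH'⟩ := exists_ker_zs (Z := Z) fun h => (z₁ 0 h).2 rfl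
  obtain ⟨G', hG'⟩ := exists_ker_zs (Z := Z' ∪ Z) fun h => (z₃ 0 h).2 rfl
  have e₁ : ‖aeval T p (e 0) - t • e 0 - H‖ ≤ η₃ := by
    rw [sub_right_comm]
    refine (norm_sub_le _ _).trans ?_
    rw [norm_smul, norm_e]
    linarith
  have e₂ : ‖aeval T a (e 0) - H‖ ≤ 2 * s := by
    rw [ha, add_sub_right_comm]
    refine (norm_add_le _ _).trans ?_
    rw [norm_smul, Complex.norm_real, Real.norm_of_nonneg p₄.le, hδ, norm_pow_e]
    linarith [min_le_right η₂ s]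
  have e₃ : ‖aeval T a (e 0)‖ ≤ 1 + ε := by
    linarith [norm_sub_norm_le (aeval T a (e 0)) H, hH.norm,
      min_le_left (ε / 2) (η₁ / (6 * (‖aeval T q‖ + 1)))]
  have e₄ : ‖aeval T q (aeval T a (e 0)) - t' • aeval T a (e 0) - G‖ ≤ η₁ := by
    have h1 : aeval T q (aeval T a (e 0)) - t' • aeval T a (e 0) - G =
        aeval T q (aeval T a (e 0) - H) + (aeval T q H - G) - t' • aeval T a (e 0) := by
      rw [map_sub (aeval T q)]; abel
    have h2 : ‖aeval T q (aeval T a (e 0) - H)‖ ≤ η₁ / 3 := by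
      refine ((aeval T q).le_of_opNorm_le_of_le (le_add_of_nonneg_right zero_le_one) e₂).trans ?_
      have h3 : s ≤ η₁ / (6 * (‖aeval T q‖ + 1)) := min_le_right _ _
      rw [le_div_iff₀ (by positivity)] at h3
      linarith
    have h3 : ‖t' • aeval T a (e 0)‖ ≤ η₁ / 6 * 2 := by
      rw [norm_smul]
      exact mul_le_mul ht' (by linarith) (norm_nonneg _) (by positivity)
    rw [h1]
    linarith [norm_sub_le (aeval T q (aeval T a (e 0) - H) + (aeval T q H - G))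
      (t' • aeval T a (e 0)), norm_add_le (aeval T q (aeval T a (e 0) - H)) (aeval T q H - G)]
  have e₅ : ‖(δ' : ℂ) • (T ^ N') (aeval T a (e 0))‖ ≤ ε / 2 := by
    rw [norm_smul, Complex.norm_real, Real.norm_of_nonneg p₅.le, ae_pow]
    refine (mul_le_mul_of_nonneg_left (hup _) p₅.le).trans_eq ?_
    rw [mul_left_comm, hδ', norm_pow_e]
    field_simp
    norm_num
  have hd : Disjoint Z' Z := disjoint_left.2 fun l h h' => (hZ' l h).2 (mem_insert_of_mem h')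
  have e₆ : aeval T b (aeval T a (e 0)) = aeval T (C (c' * c) * pz (Z' ∪ Z)) (e 0) := by
    rw [← ae_mul, ha', hb', pz, pz, pz, prod_union hd, C_mul, mul_mul_mul_comm]
  obtain ⟨k₁, k₂⟩ := ker_cyc (fun l hl => (z₁ l hl).1) hc
  obtain ⟨k₃, k₄⟩ := ker_cyc (fun l hl => (z₃ l hl).1) (mul_ne_zero hc' hc)
  rw [← ha'] at k₁ k₂
  rw [← e₆] at k₃ k₄
  refine ⟨H', G', hH'.norm_eq, hG'.norm_eq, dom_zs z₁ hH' Z' z₂ G' hG', ?_, ?_⟩
  · refine h₂ _ ((δ : ℂ) • (T ^ N) (e 0)) N _ H' (e₁.trans (min_le_left _ _)) (fun k hk => ?_)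
      (by omega) (fun f => ?_) (ha _ ▸ e₃) hH' (ha _ ▸ k₁) (ha _ ▸ k₂ hH'.mem)
    · rw [lp.coeFn_smul, Pi.smul_apply, T_pow_apply_lt _ _ _ (by omega), smul_zero]
    · rw [← ha, ae_comm]
      refine le_trans (le_of_eq ?_) (hlo _)
      rw [hδ]; ring
  · refine h₁ _ ((δ' : ℂ) • (T ^ N') (aeval T a (e 0))) (N' + N) _ G'
      (e₄.trans (min_le_left _ _)) (fun k hk => ?_) (by omega) (fun f => ?_) ?_ hG' (hb _ ▸ k₃)
      (hb _ ▸ k₄ hG'.mem)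
    · rw [lp.coeFn_smul, Pi.smul_apply, T_pow_apply_lt _ _ _ (by omega), smul_zero]
    · rw [← hb, ae_comm f b, ae_comm f a, ae_comm b a]
      refine le_trans ?_ (hlo _)
      rw [ae_pow b]
      refine le_trans ?_ (mul_le_mul_of_nonneg_left (hlo' _) (by positivity))
      rw [pow_add, mul_apply_eq_comp, ← mul_assoc, ← mul_assoc]
      refine mul_le_mul_of_nonneg_right ?_ (norm_nonneg _)
      have h1 : √(((N' + N : ℕ) : ℝ) + 1) ≤ 2 * √(N' + 1) := by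
        rw [Real.sqrt_le_left (by positivity), mul_pow, Real.sq_sqrt (by positivity)]
        have h2 : N' + N + 1 ≤ 2 ^ 2 * (N' + 1) := by omega
        exact_mod_cast h2
      have h2 : δ / 2 * (δ' / 2) = ε / 32 * (2 * √(N' + 1)) := by
        rw [hδ']
        field_simp
        norm_num
      rw [h2]
      exact mul_le_mul_of_nonneg_left h1 (by positivity)
    · refine (norm_add_le _ _).trans ?_
      linarith [norm_sub_norm_le (aeval T q (aeval T a (e 0)) - t' • aeval T a (e 0)) G, hG.norm,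
        min_le_right η₀ (ε / 2)]

lemma close {G G' : E} (hG : ‖G‖ = 1) (hG' : ‖G'‖ = 1) {η : ℝ} (hη : 0 ≤ η)
    (h : 1 ≤ (1 + η ^ 2 / 4) * (‖⟪G, G'⟫_ℂ‖ + η ^ 2 / 4)) (A : E →L[ℂ] E) :
    |‖A G'‖ - ‖A G‖| ≤ ‖A‖ * η := by
  obtain ⟨w, hw, hw'⟩ := Complex.exists_norm_eq_mul_self ⟪G, G'⟫_ℂ
  have h1 : ‖⟪G, G'⟫_ℂ‖ ≤ 1 := by simpa [hG, hG'] using norm_inner_le_norm (𝕜 := ℂ) G G'
  have h2 : ‖G - w • G'‖ ≤ η := by
    refine (pow_le_pow_iff_left₀ (norm_nonneg _) hη two_ne_zero).1 ?_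
    rw [@norm_sub_sq ℂ, inner_smul_right, ← hw', norm_smul, hw, hG, hG']
    simp only [RCLike.re_to_complex, Complex.ofReal_re]
    by_contra h3
    have h4 : ‖⟪G, G'⟫_ℂ‖ + η ^ 2 / 4 < 1 - η ^ 2 / 4 := by linarith
    have h5 := mul_lt_mul_of_pos_left h4 (show 0 < 1 + η ^ 2 / 4 by positivity)
    nlinarith [sq_nonneg (η ^ 2 / 4)]
  have h3 : ‖A G'‖ = ‖A (w • G')‖ := by rw [map_smul, norm_smul, hw, one_mul]
  rw [h3, abs_sub_comm]
  refine (abs_norm_sub_norm_le _ _).trans ?_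
  rw [← map_sub]
  exact A.le_of_opNorm_le_of_le le_rfl h2

theorem dom_cyc {H G : E} (hH : Wan H) (hG : Wan G) (hGH : G ∈ cyc H) : Dom H G := by
  intro h
  refine le_of_forall_pos_le_add fun ε hε => ?_
  set η := min 1 (ε / (2 * (‖aeval T h‖ + 1))) with hη
  have h0 : 0 < η := by positivity
  have h1 : η ≤ 1 := min_le_left _ _
  have h2 : η ≤ ε / (2 * (‖aeval T h‖ + 1)) := min_le_right _ _
  rw [le_div_iff₀ (by positivity)] at h2
  obtain ⟨H', G', h3, h4, h5, h6, h7⟩ := nested hH hG hGH (ε := η ^ 2 / 4) (by positivity)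
    (by nlinarith)
  linarith [abs_le.1 (close hH.norm h3 h0.le h6 (aeval T h)),
    abs_le.1 (close hG.norm h4 h0.le h7 (aeval T h)), h5 h]

theorem dom_of_one {I J : Submodule ℂ E} (hI : Inv I) (hJ : Inv J) (hIJ : I ≤ J) (h1 : One J)
    {G H : E} (hG : IsKer I G) (hH : IsKer J H) : Dom H G :=
  dom_cyc (wan_of_ker hJ hH) (wan_of_ker hI hG) (wander hJ hH h1 (hIJ hG.mem))

lemma ker_of_wan {G : E} (hG : Wan G) (h : ∃ r : ℝ, 0 < r ∧ G 0 = r) : IsKer (cyc G) G := by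
  refine ⟨self_mem_cyc G, hG.norm, h, fun x hx => cyc_ind (P := fun x => x 0 = G 0 * ⟪G, x⟫_ℂ)
    (isClosed_eq continuous_zero (by fun_prop)) (fun p => ?_) hx⟩
  rw [aeval_zero_apply, aeval_eq_sum_range, _root_.sum_apply]
  simp only [smul_apply]
  rw [hG.inner, coeff_zero_eq_eval_zero, mul_comm]

theorem fail {J : Submodule ℂ E} (hJ : Inv J) {H : E} (hH : IsKer J H) (h1 : ¬ One J) :
    ∃ G ∈ J, IsKer (cyc G) G ∧ ∃ h : ℂ[X], ‖aeval T h G‖ < ‖aeval T h H‖ := by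
  rw [One] at h1
  push Not at h1
  obtain ⟨f, hf, hf0, hf1⟩ := h1
  let S := J.map T.toLinearMap
  have : CompleteSpace S := (isClosed_map hJ.closed).completeSpace_coe
  obtain ⟨y, hy, he⟩ := S.starProjection_apply_mem f
  set ψ := f - S.starProjection f with hψ
  have hψT : ∀ x ∈ J, ⟪ψ, T x⟫_ℂ = 0 := fun x hx => S.starProjection_inner_eq_zero f _ ⟨x, hx, rfl⟩
  have hψy : ψ = f - T y := by rw [hψ, ← he]; rfl
  have hψJ : ψ ∈ J := hψy ▸ J.sub_mem hf (hJ.shift y hy)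
  have hψ0 : ψ 0 = 0 := by rw [hψy, lp.coeFn_sub, Pi.sub_apply, hf0, T_apply_zero, sub_zero]
  have hψn : ψ ≠ 0 := fun h => hf1 y hy (sub_eq_zero.1 (hψy ▸ h))
  have hz : ∀ x ∈ J, x 0 = 0 → ⟪H, x⟫_ℂ = 0 := fun x hx h0 =>
    (mul_eq_zero.1 ((hH.repr x hx).symm.trans h0)).resolve_left (ker_zero_ne hH)
  obtain ⟨n, m, a, hβ⟩ := exists_Q_inner_ne_zero H ψ (ker_zero_ne hH) hψn
  obtain ⟨c, hc⟩ := exists_norm_add_smul_lt _ _ hβ
  have h2 : 1 ≤ ‖H + c • ψ‖ := by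
    apply (pow_le_pow_iff_left₀ (by norm_num) (norm_nonneg _) two_ne_zero).mp
    rw [@norm_add_sq ℂ, inner_smul_right, hz ψ hψJ hψ0, hH.norm_eq]
    simp
  have h3 : 0 < ‖H + c • ψ‖ := by linarith
  have h4 : ((‖H + c • ψ‖ : ℂ)⁻¹) • (H + c • ψ) ∈ J :=
    J.smul_mem _ (J.add_mem hH.mem (J.smul_mem _ hψJ))
  have h5 : ∀ x, ‖((‖H + c • ψ‖ : ℂ)⁻¹) • x‖ = ‖H + c • ψ‖⁻¹ * ‖(x : E)‖ := fun x => by
    rw [norm_smul, norm_inv, Complex.norm_real, Real.norm_of_nonneg h3.le]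
  obtain ⟨r, hr, hr0⟩ := hH.pos
  refine ⟨_, h4, ker_of_wan ⟨by rw [h5, inv_mul_cancel₀ h3.ne'], fun k => ?_⟩
    ⟨‖H + c • ψ‖⁻¹ * r, by positivity, ?_⟩, X ^ n + C a * X ^ m, ?_⟩
  · have h6 := hJ.aeval (X ^ k) h4
    rw [aeval_X_pow] at h6
    rw [pow_succ', mul_apply_eq_comp, inner_smul_left, inner_add_left, inner_smul_left, hψT _ h6,
      hz _ (hJ.shift _ h6) (T_apply_zero _)]
    simp
  · simp only [lp.coeFn_smul, lp.coeFn_add, Pi.smul_apply, Pi.add_apply, hψ0, hr0]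
    simp
  · have h6 : aeval T (X ^ n + C a * X ^ m) = Q n m a := by
      rw [map_add, map_mul, aeval_C, aeval_X_pow, aeval_X_pow, Q, Algebra.smul_def]
    rw [h6, map_smul, h5, map_add, map_smul]
    exact lt_of_le_of_lt (mul_le_of_le_one_left (norm_nonneg _) (inv_le_one_of_one_le₀ h2)) hc

lemma Dom.ext {H G x : E} (h : Dom H G) (hG : G ≠ 0) (hx : x ∈ cyc G) {F : ℂ → ℂ}
    (hF : DifferentiableOn ℂ F (ball 0 1)) (he : ∀ z ∈ ball (0 : ℂ) 1, Phi x z = Phi G z * F z) :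
    ∃ y : E, ‖y‖ ≤ ‖x‖ ∧ ∀ z ∈ ball (0 : ℂ) 1, Phi y z = Phi H z * F z := by
  obtain ⟨p, hp⟩ := exists_seq hx
  have h1 : CauchySeq fun n => aeval T (p n) H := by
    have h2 := hp.cauchySeq
    rw [Metric.cauchySeq_iff] at h2 ⊢
    intro ε hε
    obtain ⟨N, hN⟩ := h2 ε hε
    refine ⟨N, fun m hm n hn => lt_of_le_of_lt ?_ (hN m hm n hn)⟩
    have h3 := h (p m - p n)
    rwa [map_sub, sub_apply, sub_apply, ← dist_eq_norm, ← dist_eq_norm] at h3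
  obtain ⟨y, hy⟩ := cauchySeq_tendsto_of_complete h1
  refine ⟨y, le_of_tendsto_of_tendsto' hy.norm hp.norm fun n => h (p n), ?_⟩
  have h2 : ∀ z ∈ ball (0 : ℂ) 1, Phi G z * (Phi y z - Phi H z * F z) = 0 := fun z hz => by
    have h3 := (((continuous_Phi hz).tendsto y).comp hy).const_mul (Phi G z)
    have h4 := (((continuous_Phi hz).tendsto x).comp hp).const_mul (Phi H z)
    have h5 := tendsto_nhds_unique h3 (h4.congr fun n => by
      simp only [Function.comp_apply, Phi_aeval _ _ hz]; ring)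
    rw [mul_sub, h5, he z hz]; ring
  rcases AnalyticOnNhd.eq_zero_or_eq_zero_of_mul_eq_zero
    ((differentiableOn_Phi G).analyticOnNhd isOpen_ball)
    (((differentiableOn_Phi y).sub ((differentiableOn_Phi H).mul hF)).analyticOnNhd isOpen_ball)
    h2 (convex_ball _ _).isPreconnected with h3 | h3
  · exact (hG (Phi_inj h3)).elim
  · exact fun z hz => sub_eq_zero.1 (h3 z hz)

theorem exists_not_one : ∃ J : Submodule ℂ E, Inv J ∧ (∃ f ∈ J, f 0 ≠ 0) ∧ ¬ One J := by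
  obtain ⟨I, J, G, H, n, m, a, h1, h2, h3, h4, h5, h6, h7, h8⟩ := exists_counterexample_shift
  refine ⟨J, ⟨h2, h4⟩, ⟨H, h7.mem, ker_zero_ne h7⟩, fun h => h8.not_ge ?_⟩
  have h9 := dom_of_one ⟨h1, h3⟩ ⟨h2, h4⟩ h5 h h6 h7 (X ^ n + C a * X ^ m)
  rwa [map_add, map_mul, aeval_C, aeval_X_pow, aeval_X_pow, ← Algebra.smul_def] at h9

end Pool.Agent.P.MP_d05361_an.C
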