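import Pool.Agent.P.MP_d05361_an.Transfer
import Pool.Agent.P.MP_d05361_an.C.Ker

/-
Invariant subspaces of the Bergman shift: kernels, cyclic subspaces, the wandering subspace theorem.
-/

set_option autoImplicit false

namespace Pool.Agent.P.MP_d05361_an.C

open scoped ENNReal InnerProductSpace ComplexConjugate ComplexOrder
open Finset Filter Topology Metric Polynomial

lemma norm_T_le (x : E) : ‖T x‖ ≤ ‖x‖ := (norm_Tlin_le x).trans_eq (one_mul _)

lemma norm_T_pow_le (n : ℕ) (x : E) : ‖(T ^ n) x‖ ≤ ‖x‖ := by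
  induction n with
  | zero => simp
  | succ n ih => rw [pow_succ', mul_apply_eq_comp]; exact (norm_T_le _).trans ih

lemma Phi_sub (x y : E) {z : ℂ} (hz : z ∈ ball (0 : ℂ) 1) : Phi (x - y) z = Phi x z - Phi y z := by
  rw [sub_eq_add_neg, Phi_add _ _ hz, ← neg_one_smul ℂ y, Phi_smul]; ring

lemma Phi_zero (z : ℂ) : Phi 0 z = 0 := by simp [Phi]

lemma Phi_inj {x : E} (h : ∀ z ∈ ball (0 : ℂ) 1, Phi x z = 0) : x = 0 := by
  have h1 : nsq (Phi 0) = ‖x‖ₑ ^ 2 := nsq_of_eqOn fun z hz => by rw [h z hz, Phi_zero]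
  rw [nsq_of_eqOn (x := 0) fun _ _ => rfl] at h1
  simpa using h1.symm

lemma Phi_mul_eq_zero {x y : E} (hx : x ≠ 0) (h : ∀ z ∈ ball (0 : ℂ) 1, Phi x z * Phi y z = 0) :
    y = 0 := by
  rcases AnalyticOnNhd.eq_zero_or_eq_zero_of_mul_eq_zero
    ((differentiableOn_Phi x).analyticOnNhd isOpen_ball)
    ((differentiableOn_Phi y).analyticOnNhd isOpen_ball) h (convex_ball _ _).isPreconnected with
    h1 | h1
  · exact (hx (Phi_inj h1)).elim
  · exact Phi_inj h1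

lemma Phi_aeval (p : ℂ[X]) (x : E) {z : ℂ} (hz : z ∈ ball (0 : ℂ) 1) :
    Phi (aeval T p x) z = p.eval z * Phi x z := by
  induction p using Polynomial.induction_on' with
  | add p q hp hq => rw [map_add, add_apply, Phi_add _ _ hz, hp, hq, eval_add, add_mul]
  | monomial n a =>
    rw [aeval_monomial, ← Algebra.smul_def, smul_apply, Phi_smul, Phi_T_pow _ _ hz, eval_monomial,
      mul_assoc]

lemma zero_mem_ball : (0 : ℂ) ∈ ball (0 : ℂ) 1 := mem_ball_self one_pos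

lemma aeval_zero_apply (p : ℂ[X]) (x : E) : aeval T p x 0 = p.eval 0 * x 0 := by
  rw [← Phi_zero_apply, Phi_aeval _ _ zero_mem_ball, Phi_zero_apply]

/-- closed invariant subspaces -/
structure Inv (M : Submodule ℂ E) : Prop where
  closed : IsClosed (M : Set E)
  shift : ∀ x ∈ M, T x ∈ M

lemma Inv.aeval {M : Submodule ℂ E} (h : Inv M) (p : ℂ[X]) {x : E} (hx : x ∈ M) :
    aeval T p x ∈ M := by
  induction p using Polynomial.induction_on with
  | C a => rw [aeval_C, Algebra.algebraMap_eq_smul_one]; exact M.smul_mem a hx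
  | add p q hp hq => rw [map_add]; exact M.add_mem hp hq
  | monomial n a ih =>
    rw [pow_succ', mul_left_comm, map_mul, aeval_X]
    exact h.shift _ ih

/-- reproducing kernels -/
def IsRK (M : Submodule ℂ E) (k : ℂ → E) : Prop :=
  ∀ w ∈ ball (0 : ℂ) 1, k w ∈ M ∧ ∀ x ∈ M, ⟪k w, x⟫_ℂ = Phi x w

lemma exists_kap : ∃ k : ℂ → E, IsRK ⊤ k ∧ ∀ z ∈ ball (0 : ℂ) 1, ∀ w ∈ ball (0 : ℂ) 1,
    ⟪k z, k w⟫_ℂ = ((1 - z * conj w) ^ 2)⁻¹ := by
  have hm : ∀ (n : ℕ) (z w : ℂ), conj (mono n w) * mono n z = ((n : ℂ) + 1) * (z * conj w) ^ n := by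
    intro n z w
    have : ((Real.sqrt ((n : ℝ) + 1) : ℝ) : ℂ) * (Real.sqrt ((n : ℝ) + 1) : ℝ) = (n : ℂ) + 1 := by
      rw [← Complex.ofReal_mul, Real.mul_self_sqrt (by positivity)]; simp
    simp only [mono, map_mul, Complex.conj_ofReal, map_pow, mul_pow]
    rw [← this]; ring
  have h : ∀ w ∈ ball (0 : ℂ) 1, ∃ k : E, ∀ n, k n = conj (mono n w) := fun w hw => by
    refine ⟨⟨fun n => conj (mono n w), memℓp_gen ?_⟩, fun _ => rfl⟩
    have h1 : ‖w‖ ^ 2 < 1 := pow_lt_one₀ (norm_nonneg _) (mem_ball_zero_iff.1 hw) two_ne_zero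
    refine (summable_bound (e 0) (by positivity) h1).congr fun n => ?_
    have h2 := congrArg norm (hm n w w)
    rw [norm_mul, norm_mul, norm_pow, norm_mul, Complex.norm_conj, Complex.norm_conj] at h2
    have h3 : ‖(n : ℂ) + 1‖ = n + 1 := by exact_mod_cast Complex.norm_natCast (n + 1)
    simp [norm_e, sq, h2, h3]
  choose! k hk using h
  have hr : IsRK ⊤ k := fun w hw => ⟨trivial, fun x _ => by
    refine (hasSum_inner' _ _).unique ?_
    simp only [hk w hw, Complex.conj_conj, mul_comm (mono _ _)]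
    exact (summable_Phi x hw).hasSum⟩
  refine ⟨k, hr, fun z hz w hw => ?_⟩
  rw [(hr z hz).2 _ trivial, Phi]
  simp only [hk w hw, hm]
  have h1 : ‖z * conj w‖ < 1 := by
    rw [norm_mul, Complex.norm_conj]
    exact mul_lt_one_of_nonneg_of_lt_one_left (norm_nonneg _) (mem_ball_zero_iff.1 hz)
      (mem_ball_zero_iff.1 hw).le
  have h2 := (hasSum_choose_mul_geometric_of_norm_lt_one 1 h1).tsum_eq
  simpa using h2

lemma continuous_Phi {z : ℂ} (hz : z ∈ ball (0 : ℂ) 1) : Continuous fun x : E => Phi x z := by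
  obtain ⟨k, hk, -⟩ := exists_kap
  simp only [← (hk z hz).2 _ trivial]
  fun_prop

lemma continuous_zero : Continuous fun x : E => x 0 := by
  simpa only [Phi_zero_apply] using continuous_Phi zero_mem_ball

/-- the functions in `M` that vanish at `l` -/
def van (M : Submodule ℂ E) (l : ℂ) (hl : l ∈ ball (0 : ℂ) 1) : Submodule ℂ E where
  carrier := {x | x ∈ M ∧ Phi x l = 0}
  add_mem' hx hy := ⟨M.add_mem hx.1 hy.1, by rw [Phi_add _ _ hl, hx.2, hy.2, add_zero]⟩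
  zero_mem' := ⟨M.zero_mem, Phi_zero l⟩
  smul_mem' c x hx := ⟨M.smul_mem c hx.1, by rw [Phi_smul, hx.2, mul_zero]⟩

lemma IsRK.van {M : Submodule ℂ E} {k : ℂ → E} (h : IsRK M k) {l : ℂ} (hl : l ∈ ball (0 : ℂ) 1)
    (h0 : ⟪k l, k l⟫_ℂ ≠ 0) : ∃ k', IsRK (van M l hl) k' ∧ ∀ z ∈ ball (0 : ℂ) 1,
      ∀ w ∈ ball (0 : ℂ) 1, ⟪k' z, k' w⟫_ℂ = cut (fun z w => ⟪k z, k w⟫_ℂ) l z w := by
  have h1 : ∀ w ∈ ball (0 : ℂ) 1, k w - (⟪k l, k w⟫_ℂ / ⟪k l, k l⟫_ℂ) • k l ∈ M := fun w hw =>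
    M.sub_mem (h w hw).1 (M.smul_mem _ (h l hl).1)
  have h2 : IsRK (C.van M l hl) fun w => k w - (⟪k l, k w⟫_ℂ / ⟪k l, k l⟫_ℂ) • k l := by
    refine fun w hw => ⟨⟨h1 w hw, ?_⟩, fun x hx => ?_⟩
    · rw [← (h l hl).2 _ (h1 w hw), inner_sub_right, inner_smul_right, div_mul_cancel₀ _ h0,
        sub_self]
    · rw [inner_sub_left, inner_smul_left, (h l hl).2 x hx.1, hx.2, (h w hw).2 x hx.1]; simp
  refine ⟨_, h2, fun z hz w hw => ?_⟩
  rw [(h2 z hz).2 _ (h2 w hw).1, ← (h z hz).2 _ (h1 w hw), inner_sub_right, inner_smul_right, cut]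
  ring

lemma IsRK.ne {M : Submodule ℂ E} {k : ℂ → E} (h : IsRK M k) {z : ℂ} (hz : z ∈ ball (0 : ℂ) 1)
    {x : E} (hx : x ∈ M) (h0 : Phi x z ≠ 0) : ⟪k z, k z⟫_ℂ ≠ 0 := by
  rw [ne_eq, inner_self_eq_zero]
  intro e
  rw [← (h z hz).2 x hx, e, inner_zero_left] at h0
  exact h0 rfl

lemma IsRK.ker {M : Submodule ℂ E} {k : ℂ → E} (h : IsRK M k) {G : E} (hG : IsKer M G) {z w : ℂ}
    (hz : z ∈ ball (0 : ℂ) 1) (hw : w ∈ ball (0 : ℂ) 1) :
    ⟪k z, k 0⟫_ℂ * ⟪k 0, k w⟫_ℂ / ⟪k 0, k 0⟫_ℂ = Phi G z * conj (Phi G w) := by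
  obtain ⟨r, hr, h0⟩ := hG.pos
  have h1 : k 0 = (r : ℂ) • G := by
    have hm := M.sub_mem (h 0 zero_mem_ball).1 (M.smul_mem (r : ℂ) hG.mem)
    rw [← sub_eq_zero, ← inner_self_eq_zero (𝕜 := ℂ), inner_sub_left, inner_smul_left,
      (h 0 zero_mem_ball).2 _ hm, Phi_zero_apply, hG.repr _ hm, h0, Complex.conj_ofReal, sub_self]
  have h2 : (r : ℂ) ≠ 0 := by exact_mod_cast hr.ne'
  rw [← inner_conj_symm (k 0) (k w), h1, inner_smul_right, inner_smul_right, inner_smul_right,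
    inner_smul_left, (h z hz).2 _ hG.mem, (h w hw).2 _ hG.mem, inner_self_eq_norm_sq_to_K,
    hG.norm_eq, map_mul, Complex.conj_ofReal]
  simp only [Complex.coe_algebraMap, Complex.ofReal_one, one_pow]
  field_simp

lemma conv {M M' : Submodule ℂ E} {k k' : ℂ → E} (hM : IsClosed (M : Set E)) (h : IsRK M k)
    (h' : IsRK M' k') {Y : Type} (f : Y → ℂ) (hf : ∀ z, f z ∈ ball (0 : ℂ) 1) (g g' : Y → ℂ)
    (hp : PS fun z w => g' z * conj (g' w) * ⟪k (f z), k (f w)⟫_ℂ -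
      g z * conj (g w) * ⟪k' (f z), k' (f w)⟫_ℂ)
    (hd : ∀ x ∈ M, (∀ z, g' z * Phi x (f z) = 0) → x = 0) {y y' : E} (hy : y ∈ M) (hy' : y' ∈ M')
    (he : ∀ z, g' z * Phi y (f z) = g z * Phi y' (f z)) : ‖y‖ ≤ ‖y'‖ := by
  let S := Submodule.span ℂ (Set.range fun z => conj (g' z) • k (f z))
  have h1 : ∀ x ∈ S, ‖⟪x, y⟫_ℂ‖ ≤ ‖x‖ * ‖y'‖ := fun x hx => by
    obtain ⟨n, c, v, rfl⟩ := Submodule.mem_span_set'.1 hx
    choose z hz using fun i => (v i).2
    simp only [← hz]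
    have h2 : ⟪∑ i, c i • conj (g' (z i)) • k (f (z i)), y⟫_ℂ =
        ⟪∑ i, c i • conj (g (z i)) • k' (f (z i)), y'⟫_ℂ := by
      simp only [sum_inner, inner_smul_left, Complex.conj_conj, (h _ (hf _)).2 y hy,
        (h' _ (hf _)).2 y' hy', he]
    rw [h2]
    refine (norm_inner_le_norm _ _).trans (mul_le_mul_of_nonneg_right ?_ (norm_nonneg _))
    have h3 := hp.pos _ z c
    have h4 : ∑ i, ∑ j, conj (c i) * (g' (z i) * conj (g' (z j)) *
        ⟪k (f (z i)), k (f (z j))⟫_ℂ - g (z i) * conj (g (z j)) *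
          ⟪k' (f (z i)), k' (f (z j))⟫_ℂ) * c j =
        ⟪∑ i, c i • conj (g' (z i)) • k (f (z i)), ∑ i, c i • conj (g' (z i)) • k (f (z i))⟫_ℂ -
        ⟪∑ i, c i • conj (g (z i)) • k' (f (z i)), ∑ i, c i • conj (g (z i)) • k' (f (z i))⟫_ℂ := by
      simp only [sum_inner, inner_sum, inner_smul_left, inner_smul_right, Complex.conj_conj,
        mul_sum, ← sum_sub_distrib]
      rw [sum_comm]
      exact sum_congr rfl fun i _ => sum_congr rfl fun j _ => by ring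
    rw [h4, inner_self_eq_norm_sq_to_K, inner_self_eq_norm_sq_to_K, sub_nonneg] at h3
    have h5 : ‖∑ i, c i • conj (g (z i)) • k' (f (z i))‖ ^ 2 ≤
      ‖∑ i, c i • conj (g' (z i)) • k (f (z i))‖ ^ 2 := by exact_mod_cast h3
    exact (pow_le_pow_iff_left₀ (norm_nonneg _) (norm_nonneg _) two_ne_zero).1 h5
  have hS : S.topologicalClosure ≤ M := S.topologicalClosure_minimal
    (Submodule.span_le.2 (by rintro _ ⟨z, rfl⟩; exact M.smul_mem _ (h _ (hf z)).1)) hM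
  have h2 : y ∈ S.topologicalClosure := by
    have h3 := S.topologicalClosure.starProjection_apply_mem y
    have h4 := hd _ (M.sub_mem hy (hS h3)) fun z => by
      have h5 := S.topologicalClosure.starProjection_inner_eq_zero y _
        (S.le_topologicalClosure (Submodule.subset_span ⟨z, rfl⟩))
      rwa [inner_eq_zero_symm, inner_smul_left, Complex.conj_conj,
        (h _ (hf z)).2 _ (M.sub_mem hy (hS h3))] at h5
    rwa [sub_eq_zero.1 h4]
  have h3 : ‖⟪y, y⟫_ℂ‖ ≤ ‖y‖ * ‖y'‖ :=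
    closure_minimal (s := (S : Set E)) (t := {x | ‖⟪x, y⟫_ℂ‖ ≤ ‖x‖ * ‖y'‖}) h1
      (isClosed_le (by fun_prop) (by fun_prop)) h2
  rw [inner_self_eq_norm_sq_to_K, norm_pow, RCLike.norm_ofReal, abs_norm, sq] at h3
  rcases (norm_nonneg y).eq_or_lt with h4 | h4
  · rw [← h4]; exact norm_nonneg _
  · exact le_of_mul_le_mul_left h3 h4

lemma exists_isKer {J : Submodule ℂ E} (hJc : IsClosed (J : Set E)) {f : E} (hf : f ∈ J)
    (hf0 : f 0 ≠ 0) : ∃ H, IsKer J H := by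
  have : CompleteSpace J := hJc.completeSpace_coe
  set k : E := J.starProjection (e 0) with hk
  have hkJ : k ∈ J := J.starProjection_apply_mem _
  have hkx : ∀ x ∈ J, ⟪k, x⟫_ℂ = x 0 := by
    intro x hx
    rw [hk, Submodule.inner_starProjection_left_eq_right,
      Submodule.starProjection_eq_self_iff.mpr hx, inner_e_left]
  have hk0 : k ≠ 0 := by
    intro h
    have := hkx f hf
    rw [h, inner_zero_left] at this
    exact hf0 this.symm
  have hkn : 0 < ‖k‖ := norm_pos_iff.mpr hk0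
  have hknC : (‖k‖ : ℂ) ≠ 0 := by exact_mod_cast hkn.ne'
  have hH0 : (((‖k‖ : ℂ)⁻¹) • k) 0 = (‖k‖ : ℂ) := by
    rw [← hkx _ (J.smul_mem _ hkJ), inner_smul_right, inner_self_eq_norm_sq_to_K]
    simp only [Complex.coe_algebraMap]
    field_simp
  refine ⟨((‖k‖ : ℂ)⁻¹) • k, J.smul_mem _ hkJ, ?_, ⟨‖k‖, hkn, hH0⟩, fun x hx => ?_⟩
  · rw [norm_smul, norm_inv, Complex.norm_real, Real.norm_eq_abs, abs_of_pos hkn]
    exact inv_mul_cancel₀ hkn.ne'
  · rw [hH0, inner_smul_left, hkx x hx, map_inv₀, Complex.conj_ofReal]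
    field_simp

/-- the orbit map -/
noncomputable def orb (G : E) : ℂ[X] →ₗ[ℂ] E :=
  (ContinuousLinearMap.apply ℂ E G).toLinearMap ∘ₗ (aeval T : ℂ[X] →ₐ[ℂ] (E →L[ℂ] E)).toLinearMap

/-- the cyclic subspace -/
noncomputable def cyc (G : E) : Submodule ℂ E := (LinearMap.range (orb G)).topologicalClosure

lemma aeval_mem_cyc (G : E) (p : ℂ[X]) : aeval T p G ∈ cyc G :=
  Submodule.le_topologicalClosure _ ⟨p, rfl⟩

lemma self_mem_cyc (G : E) : G ∈ cyc G := by simpa using aeval_mem_cyc G 1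

lemma cyc_ind {G : E} {P : E → Prop} (hc : IsClosed {x | P x}) (h : ∀ p : ℂ[X], P (aeval T p G))
    {x : E} (hx : x ∈ cyc G) : P x :=
  closure_minimal (t := {x | P x}) (by rintro _ ⟨p, rfl⟩; exact h p) hc hx

lemma inv_cyc (G : E) : Inv (cyc G) := by
  have hc : IsClosed (cyc G : Set E) := Submodule.isClosed_topologicalClosure _
  refine ⟨hc, fun x hx => cyc_ind (P := fun x => T x ∈ cyc G) (hc.preimage T.continuous)
    (fun p => ?_) hx⟩
  have := aeval_mem_cyc G (X * p)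
  rwa [map_mul, aeval_X] at this

lemma Inv.cyc_le {M : Submodule ℂ E} (h : Inv M) {G : E} (hG : G ∈ M) : cyc G ≤ M :=
  fun _ hx => cyc_ind (P := fun x => x ∈ M) h.closed (fun p => h.aeval p hG) hx

lemma exists_seq {G x : E} (hx : x ∈ cyc G) :
    ∃ p : ℕ → ℂ[X], Tendsto (fun n => aeval T (p n) G) atTop (𝓝 x) := by
  obtain ⟨u, hu, hl⟩ := mem_closure_iff_seq_limit.1 hx
  choose p hp using hu
  exact ⟨p, hl.congr fun n => (hp n).symm⟩

/-- Shimorin's inequality -/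
lemma shimorin (f g : E) : ‖T f + g‖ ^ 2 ≤ 2 * (‖f‖ ^ 2 + ‖T g‖ ^ 2) := by
  have hs := fun x : E => (summable_nat_add_iff 1).2 (summable_sq x)
  have hs2 := (summable_nat_add_iff 1).2 (hs (T g))
  rw [norm_sq_eq_tsum, norm_sq_eq_tsum f, norm_sq_eq_tsum (T g),
    (summable_sq (T f + g)).tsum_eq_zero_add, (summable_sq (T g)).tsum_eq_zero_add,
    (hs (T g)).tsum_eq_zero_add]
  have h1 : ∑' n, ‖(T f + g) (n + 1)‖ ^ 2 ≤ ∑' n, 2 * (‖f n‖ ^ 2 + ‖T g (n + 1 + 1)‖ ^ 2) := by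
    refine Summable.tsum_le_tsum (fun n => ?_) (hs _) (((summable_sq f).add hs2).mul_left 2)
    rw [lp.coeFn_add, Pi.add_apply, T_apply_succ, T_apply_succ, norm_mul, mul_pow,
      Complex.norm_real, Real.norm_eq_abs, sq_abs, W_sq]
    have h2 : ‖(W n 1 : ℂ) * f n + g (n + 1)‖ ≤ W n 1 * ‖f n‖ + ‖g (n + 1)‖ := by
      refine (norm_add_le _ _).trans_eq ?_
      rw [norm_mul, Complex.norm_real, Real.norm_eq_abs, abs_of_pos (W_pos n 1)]
    refine (pow_le_pow_left₀ (norm_nonneg _) h2 2).trans ?_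
    have h3 := W_sq n 1
    set w := W n 1
    set a := ‖f n‖
    set b := ‖g (n + 1)‖
    push_cast at h3 ⊢
    have hn : (0 : ℝ) ≤ n := by positivity
    rw [eq_div_iff (by positivity)] at h3
    have h4 : 2 * (a ^ 2 + (n + 1 + 1) / (n + 1 + 1 + 1) * b ^ 2) - (w * a + b) ^ 2 =
        ((n + 3) * a - (n + 2) * w * b) ^ 2 / ((n + 2) * (n + 3)) := by
      field_simp
      linear_combination (n + 3) * (-(n + 3) * a ^ 2 - (n + 2) * b ^ 2) * h3
    rw [← sub_nonneg, h4]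
    positivity
  rw [tsum_mul_left, (summable_sq f).tsum_add hs2] at h1
  have h2 : ‖(T f + g) 0‖ ^ 2 = 2 * ‖T g (0 + 1)‖ ^ 2 := by
    rw [lp.coeFn_add, Pi.add_apply, T_apply_zero, T_apply_succ, zero_add, norm_mul, mul_pow,
      Complex.norm_real, Real.norm_eq_abs, sq_abs, W_sq]
    push_cast
    ring
  rw [h2, T_apply_zero, norm_zero]
  linarith

lemma antilip : AntilipschitzWith 2 T := by
  refine T.antilipschitz_of_bound fun x => ?_
  have h := shimorin 0 x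
  rw [map_zero, zero_add, norm_zero] at h
  refine (pow_le_pow_iff_left₀ (norm_nonneg _) (by positivity) two_ne_zero).1 ?_
  push_cast
  nlinarith [sq_nonneg ‖T x‖]

lemma isClosed_map {M : Submodule ℂ E} (h : IsClosed (M : Set E)) : IsClosed (T '' (M : Set E)) :=
  (antilip.isClosedEmbedding T.uniformContinuous).isClosedMap _ h

/-- index one -/
def One (M : Submodule ℂ E) : Prop := ∀ x ∈ M, x 0 = 0 → ∃ y ∈ M, x = T y

lemma tail_tendsto (x : E) {ε : ℝ} (hε : 0 < ε) :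
    ∃ d : ℕ, ∃ R : E, (∀ k, d < k → R k = 0) ∧ ‖R - x‖ ≤ ε := by
  obtain ⟨s, hs⟩ := ((lp.hasSum_single (p := 2) (by norm_num) x).eventually
    (closedBall_mem_nhds x hε)).exists
  refine ⟨s.sup id, _, fun k hk => ?_, mem_closedBall_iff_norm.1 hs⟩
  rw [lp.coeFn_sum, Finset.sum_apply]
  refine sum_eq_zero fun i hi => lp.single_apply_ne _ _ _ ?_
  exact ((le_sup (f := id) hi).trans_lt hk).ne'

/-- the wandering subspace theorem for index one -/
theorem wander {J : Submodule ℂ E} (hJ : Inv J) {G : E} (hG : IsKer J G) (h1 : One J) :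
    J ≤ cyc G := by
  have := hJ.closed.completeSpace_coe
  have := (inv_cyc G).closed.completeSpace_coe
  have key : ∀ x ∈ J, (∀ n : ℕ, ⟪x, (T ^ n) G⟫_ℂ = 0) → x = 0 := by
    intro x hx ho
    let u : ℕ → E := fun n => J.starProjection ((T ^ n).adjoint x)
    have hu : ∀ n, u n ∈ J := fun n => J.starProjection_apply_mem _
    have hi : ∀ n, ∀ y ∈ J, ⟪u n, y⟫_ℂ = ⟪x, (T ^ n) y⟫_ℂ := fun n y hy => by
      rw [Submodule.inner_starProjection_left_eq_right,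
        Submodule.starProjection_eq_self_iff.mpr hy, ContinuousLinearMap.adjoint_inner_left]
    have hi' : ∀ n, ∀ y ∈ J, ⟪u n, T y⟫_ℂ = ⟪u (n + 1), y⟫_ℂ := fun n y hy => by
      rw [hi _ _ (hJ.shift y hy), hi _ _ hy, pow_succ, mul_apply_eq_comp]
    have hc : ∀ n, ‖u n‖ ^ 2 + ‖u (n + 2)‖ ^ 2 ≤ 2 * ‖u (n + 1)‖ ^ 2 := fun n => by
      obtain ⟨y, hy, he⟩ := h1 _ (hu n) (by
        rw [hG.repr _ (hu n), ← inner_conj_symm, hi _ _ hG.mem, ho]; simp)
      have h2 : ⟪u (n + 1), T (u (n + 2)) + y⟫_ℂ = ((‖u n‖ ^ 2 + ‖u (n + 2)‖ ^ 2 : ℝ) : ℂ) := by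
        rw [inner_add_right, hi' _ _ (hu _), ← hi' _ _ hy, ← he, inner_self_eq_norm_sq_to_K,
          inner_self_eq_norm_sq_to_K]
        push_cast
        exact add_comm _ _
      have h3 := norm_inner_le_norm (𝕜 := ℂ) (u (n + 1)) (T (u (n + 2)) + y)
      rw [h2, Complex.norm_real, Real.norm_of_nonneg (by positivity)] at h3
      have h4 := shimorin (u (n + 2)) y
      rw [← he, add_comm (‖u (n + 2)‖ ^ 2)] at h4
      set s := ‖u n‖ ^ 2 + ‖u (n + 2)‖ ^ 2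
      have h5 : 0 ≤ s := by positivity
      have h6 : s * s ≤ (2 * ‖u (n + 1)‖ ^ 2) * s := by
        have h7 := pow_le_pow_left₀ h5 h3 2
        rw [mul_pow] at h7
        nlinarith [sq_nonneg ‖u (n + 1)‖]
      rcases h5.eq_or_lt with h | h
      · rw [← h]; positivity
      · exact le_of_mul_le_mul_right h6 h
    have hd : ∀ n m, ‖u (n + m + 1)‖ ^ 2 - ‖u (n + m)‖ ^ 2 ≤ ‖u (n + 1)‖ ^ 2 - ‖u n‖ ^ 2 := by
      intro n m
      induction m with
      | zero => rfl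
      | succ m ih => have := hc (n + m); rw [← add_assoc]; linarith
    have hm : ∀ n, ‖u n‖ ^ 2 ≤ ‖u (n + 1)‖ ^ 2 := fun n => by
      by_contra h
      have h2 : ∀ m : ℕ, ‖u (n + m)‖ ^ 2 ≤ ‖u n‖ ^ 2 - m * (‖u n‖ ^ 2 - ‖u (n + 1)‖ ^ 2) := by
        intro m
        induction m with
        | zero => simp
        | succ m ih => have := hd n m; rw [← add_assoc]; push_cast; linarith
      obtain ⟨m, hm⟩ := exists_nat_gt (‖u n‖ ^ 2 / (‖u n‖ ^ 2 - ‖u (n + 1)‖ ^ 2))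
      rw [div_lt_iff₀ (by linarith)] at hm
      linarith [h2 m, sq_nonneg ‖u (n + m)‖]
    have hm' : Monotone fun n => ‖u n‖ ^ 2 := monotone_nat_of_le_succ hm
    have h0 : u 0 = x := by simp [u, Submodule.starProjection_eq_self_iff.mpr hx]
    refine norm_le_zero_iff.1 (le_of_forall_pos_le_add fun ε hε => ?_)
    obtain ⟨d, R, hR, hε'⟩ := tail_tendsto x hε
    have h2 : ‖u (d + 1)‖ ^ 2 ≤ ε * ‖u (d + 1)‖ := by
      have h3 := hi (d + 1) _ (hu (d + 1))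
      have h4 : ⟪R, (T ^ (d + 1)) (u (d + 1))⟫_ℂ = 0 := inner_eq_zero_of_disjoint _ _ fun i => by
        by_cases h : d < i
        · exact Or.inl (hR i h)
        · exact Or.inr (T_pow_apply_lt _ _ _ (by omega))
      have h5 := norm_inner_le_norm (𝕜 := ℂ) (R - x) ((T ^ (d + 1)) (u (d + 1)))
      rw [inner_sub_left, h4, zero_sub, norm_neg, ← h3, inner_self_eq_norm_sq_to_K, norm_pow,
        RCLike.norm_ofReal, abs_norm] at h5
      exact h5.trans (mul_le_mul hε' (norm_T_pow_le _ _) (norm_nonneg _) hε.le)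
    have h3 : ‖x‖ ^ 2 ≤ ‖u (d + 1)‖ ^ 2 := h0 ▸ hm' (Nat.zero_le (d + 1))
    have h4 : ‖u (d + 1)‖ ≤ ε := by nlinarith [norm_nonneg (u (d + 1))]
    rw [zero_add]
    exact ((pow_le_pow_iff_left₀ (norm_nonneg _) (norm_nonneg _) two_ne_zero).1 h3).trans h4
  intro x hx
  have h2 := (cyc G).starProjection_apply_mem x
  have h3 := key _ (J.sub_mem hx (hJ.cyc_le hG.mem h2)) fun n =>
    (cyc G).starProjection_inner_eq_zero x _ (by simpa using aeval_mem_cyc G (X ^ n))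
  rwa [sub_eq_zero.1 h3]

end Pool.Agent.P.MP_d05361_an.C
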