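import Pool.Agent.P.MP_d05361_an.C.Zero

/-
Approximation of extremal vectors by extremal vectors of finite zero sets.
-/

set_option autoImplicit false

namespace Pool.Agent.P.MP_d05361_an.C

open scoped ENNReal InnerProductSpace ComplexConjugate ComplexOrder Classical
open Finset Filter Topology Metric Polynomial

lemma ae_mul (p q : ℂ[X]) (x : E) : aeval T (p * q) x = aeval T p (aeval T q x) := by
  rw [map_mul, mul_apply_eq_comp]

lemma ae_comm (p q : ℂ[X]) (x : E) : aeval T p (aeval T q x) = aeval T q (aeval T p x) := by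
  rw [← ae_mul, ← ae_mul, mul_comm]

lemma ae_pow (p : ℂ[X]) (n : ℕ) (x : E) : (T ^ n) (aeval T p x) = aeval T p ((T ^ n) x) := by
  simpa only [aeval_X_pow] using ae_comm (X ^ n) p x

lemma ae_mon (n : ℕ) (a : ℂ) (x : E) : aeval T (monomial n a) x = a • (T ^ n) x := by
  rw [aeval_monomial, ← Algebra.smul_def, smul_apply]

lemma hasSum_pow (n : ℕ) (x : E) : HasSum (fun j => W j n ^ 2 * ‖x j‖ ^ 2) (‖(T ^ n) x‖ ^ 2) := by
  have h := (summable_sq ((T ^ n) x)).hasSum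
  rw [← norm_sq_eq_tsum, ← hasSum_nat_add_iff' n, sum_eq_zero fun i hi => by
    rw [T_pow_apply_lt _ _ _ (mem_range.1 hi), norm_zero, zero_pow two_ne_zero], sub_zero] at h
  refine h.congr_fun fun j => ?_
  rw [T_pow_apply_add, norm_mul, mul_pow, Complex.norm_real, Real.norm_eq_abs, sq_abs]

lemma inner_pow_le (N k : ℕ) (x : E) : ‖⟪(T ^ N) x, (T ^ k) x⟫_ℂ‖ ≤ 2 * ‖(T ^ N) x‖ ^ 2 := by
  obtain ⟨y, hy⟩ : ∃ y : E, ∀ j, y j = if N ≤ j + k then x j else 0 := by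
    refine ⟨⟨fun j => if N ≤ j + k then x j else 0, memℓp_gen ?_⟩, fun _ => rfl⟩
    refine Summable.of_nonneg_of_le (fun _ => by positivity) (fun j => ?_) (summable_sq x)
    split_ifs <;> simp
  have h1 : ⟪(T ^ N) x, (T ^ k) (x - y)⟫_ℂ = 0 := inner_eq_zero_of_disjoint _ _ fun i => by
    rcases lt_or_ge i N with h | h
    · exact Or.inl (T_pow_apply_lt _ _ _ h)
    rcases lt_or_ge i k with h' | h'
    · exact Or.inr (T_pow_apply_lt _ _ _ h')
    obtain ⟨j, rfl⟩ : ∃ j, i = j + k := ⟨i - k, by omega⟩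
    right
    rw [T_pow_apply_add, lp.coeFn_sub, Pi.sub_apply, hy, if_pos h, sub_self, mul_zero]
  rw [map_sub, inner_sub_right, sub_eq_zero] at h1
  have h2 : ‖(T ^ k) y‖ ^ 2 ≤ 2 ^ 2 * ‖(T ^ N) x‖ ^ 2 := by
    refine hasSum_le (fun j => ?_) (hasSum_pow k y) ((hasSum_pow N x).mul_left _)
    rw [hy]
    split_ifs with h
    · rw [← mul_assoc, W_sq, W_sq]
      refine mul_le_mul_of_nonneg_right ?_ (by positivity)
      have h3 : (N : ℝ) ≤ j + k := by exact_mod_cast h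
      have h4 : (0 : ℝ) ≤ j := by positivity
      have h5 : (0 : ℝ) ≤ k := by positivity
      rw [← mul_div_assoc, div_le_div_iff₀ (by positivity) (by positivity)]
      nlinarith
    · rw [norm_zero, zero_pow two_ne_zero, mul_zero]; positivity
  rw [← mul_pow] at h2
  have h3 := (pow_le_pow_iff_left₀ (norm_nonneg _) (by positivity) two_ne_zero).1 h2
  rw [h1]
  refine (norm_inner_le_norm _ _).trans ?_
  nlinarith [norm_nonneg ((T ^ N) x)]

/-- bounds by the sum of the moduli of the coefficients -/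
structure Bd (N : ℕ) (p : ℂ[X]) (A : ℝ) : Prop where
  op : ∀ x, ‖aeval T p x‖ ≤ A * ‖x‖
  inn : ∀ x, ‖⟪(T ^ N) x, aeval T p x⟫_ℂ‖ ≤ 2 * A * ‖(T ^ N) x‖ ^ 2
  ev : ∀ z : ℂ, 1 ≤ ‖z‖ → ‖p.eval z‖ ≤ A * ‖z‖ ^ N

lemma Bd.add {N : ℕ} {p q : ℂ[X]} {A B : ℝ} (h : Bd N p A) (h' : Bd N q B) :
    Bd N (p + q) (A + B) := by
  refine ⟨fun x => ?_, fun x => ?_, fun z hz => ?_⟩
  · rw [map_add, add_apply, add_mul]
    exact (norm_add_le _ _).trans (add_le_add (h.op x) (h'.op x))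
  · rw [map_add, add_apply, inner_add_right, mul_add, add_mul]
    exact (norm_add_le _ _).trans (add_le_add (h.inn x) (h'.inn x))
  · rw [eval_add, add_mul]
    exact (norm_add_le _ _).trans (add_le_add (h.ev z hz) (h'.ev z hz))

lemma bd_mon {N k : ℕ} (h : k ≤ N) {a : ℂ} {A : ℝ} (ha : ‖a‖ ≤ A) : Bd N (monomial k a) A := by
  have h0 := (norm_nonneg a).trans ha
  refine ⟨fun x => ?_, fun x => ?_, fun z hz => ?_⟩
  · rw [ae_mon, norm_smul]
    exact mul_le_mul ha (norm_T_pow_le _ _) (norm_nonneg _) h0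
  · rw [ae_mon, inner_smul_right, norm_mul, mul_comm 2, mul_assoc]
    exact mul_le_mul ha (inner_pow_le _ _ _) (norm_nonneg _) h0
  · rw [eval_monomial, norm_mul, norm_pow]
    exact mul_le_mul ha (pow_le_pow_right₀ hz h) (by positivity) h0

lemma exists_bd (p : ℂ[X]) : ∃ (A : ℝ) (D : ℕ), 0 ≤ A ∧ ∀ N, D ≤ N → Bd N p A := by
  induction p using Polynomial.induction_on' with
  | add p q hp hq =>
    obtain ⟨A, D, hA, h⟩ := hp
    obtain ⟨B, D', hB, h'⟩ := hq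
    exact ⟨A + B, D + D', by positivity, fun N hN => (h N (by omega)).add (h' N (by omega))⟩
  | monomial n a => exact ⟨‖a‖, n, norm_nonneg _, fun N hN => bd_mon hN le_rfl⟩

lemma pert (p : ℂ[X]) {κ η : ℝ} (hκ : 0 < κ) (hη : 0 < η) (N₀ : ℕ) (S : Finset ℂ) :
    ∃ (N : ℕ) (t c : ℂ) (δ : ℝ) (a : ℂ[X]) (Z : Finset ℂ), N₀ ≤ N ∧ ‖t‖ ≤ η ∧ c ≠ 0 ∧
      δ = κ * √(N + 1) ∧ (∀ x, aeval T a x = aeval T p x - t • x + (δ : ℂ) • (T ^ N) x) ∧
      a = C c * pz Z ∧ (∀ l ∈ Z, l ∈ ball (0 : ℂ) 1 ∧ l ∉ S) ∧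
      (∀ x, δ / 2 * ‖(T ^ N) x‖ ≤ ‖aeval T a x‖) ∧ ∀ x, ‖aeval T a x‖ ≤ 2 * δ * ‖x‖ := by
  obtain ⟨A, D, hA, hb⟩ := exists_bd p
  obtain ⟨N₁, hN₁⟩ := exists_nat_ge ((4 * (A + η) / κ) ^ 2)
  set N := N₀ + N₁ + D + p.natDegree + 1 with hN
  set δ := κ * √(N + 1) with hδ
  have h1 : 4 * (A + η) ≤ δ := by
    rw [hδ, mul_comm κ, ← div_le_iff₀ hκ]
    refine Real.le_sqrt_of_sq_le (hN₁.trans ?_)
    have : N₁ ≤ N + 1 := by omega
    exact_mod_cast this
  have hδ0 : 0 < δ := by linarith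
  have hδc : (δ : ℂ) ≠ 0 := Complex.ofReal_ne_zero.2 hδ0.ne'
  set q := p + monomial N (δ : ℂ) with hq
  have h2 : q.natDegree = N := by
    rw [hq, natDegree_add_eq_right_of_natDegree_lt, natDegree_monomial_eq _ hδc]
    rw [natDegree_monomial_eq _ hδc]; omega
  have h3 : derivative q ≠ 0 := fun h => by rw [derivative_eq_zero, h2] at h; omega
  obtain ⟨t, ht, ht'⟩ := (infinite_of_mem_nhds (0 : ℂ) (closedBall_mem_nhds 0 hη)).exists_notMem_finset
    (((derivative q).roots.toFinset ∪ S).image fun z => q.eval z)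
  rw [mem_closedBall_zero_iff] at ht
  have hB : Bd N (p + monomial 0 (-t)) (A + η) :=
    (hb N (by omega)).add (bd_mon (Nat.zero_le _) (by rwa [norm_neg]))
  set a := q - C t with ha
  have ha' : a = p + monomial 0 (-t) + monomial N (δ : ℂ) := by
    rw [ha, hq, monomial_zero_left, C_neg]; ring
  have ha0 : a ≠ 0 := fun h => h3 (by simpa [ha] using congrArg derivative h)
  have hr : ∀ l, a.IsRoot l → l ∉ (derivative q).roots.toFinset ∪ S := fun l hl h =>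
    ht' (mem_image.2 ⟨l, h, by simpa [ha, sub_eq_zero] using hl⟩)
  have hnd : a.roots.Nodup := Multiset.nodup_iff_count_le_one.2 fun l => by
    rw [count_roots]
    by_contra h
    rw [not_le, one_lt_rootMultiplicity_iff_isRoot ha0] at h
    refine hr l h.1 (mem_union_left _ ?_)
    rw [Multiset.mem_toFinset, mem_roots h3]
    simpa [ha] using h.2
  have hx : ∀ x, aeval T a x = aeval T (p + monomial 0 (-t)) x + (δ : ℂ) • (T ^ N) x := fun x => by
    rw [ha', map_add, add_apply, ae_mon]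
  refine ⟨N, t, a.leadingCoeff, δ, a, ⟨a.roots, hnd⟩, by omega, ht, leadingCoeff_ne_zero.2 ha0, rfl,
    fun x => ?_, (IsAlgClosed.splits a).eq_prod_roots, fun l hl => ?_, fun x => ?_, fun x => ?_⟩
  · rw [hx, map_add, add_apply, ae_mon, pow_zero, one_apply_eq_self, neg_smul, sub_eq_add_neg]
  · have h4 : a.IsRoot l := (mem_roots ha0).1 hl
    refine ⟨mem_ball_zero_iff.2 (not_le.1 fun h => ?_), fun h => hr l h4 (mem_union_right _ h)⟩
    have h5 := hB.ev l h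
    rw [IsRoot, ha', eval_add, eval_monomial, add_eq_zero_iff_eq_neg] at h4
    rw [h4, norm_neg, norm_mul, norm_pow, Complex.norm_real, Real.norm_of_nonneg hδ0.le] at h5
    have h6 : 0 < ‖l‖ ^ N := by positivity
    nlinarith
  · have h4 := norm_inner_le_norm (𝕜 := ℂ) ((T ^ N) x) (aeval T a x)
    have h5 := hB.inn x
    have h6 : ‖⟪(T ^ N) x, (δ : ℂ) • (T ^ N) x⟫_ℂ‖ = δ * ‖(T ^ N) x‖ ^ 2 := by
      rw [inner_smul_right, inner_self_eq_norm_sq_to_K, norm_mul, norm_pow, RCLike.norm_ofReal,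
        abs_norm, Complex.norm_real, Real.norm_of_nonneg hδ0.le]
    have h7 : δ * ‖(T ^ N) x‖ ^ 2 ≤ ‖⟪(T ^ N) x, aeval T a x⟫_ℂ‖ +
        ‖⟪(T ^ N) x, aeval T (p + monomial 0 (-t)) x⟫_ℂ‖ := by
      rw [← h6, hx, inner_add_right]
      exact norm_le_add_norm_add' _ _
    rcases (norm_nonneg ((T ^ N) x)).eq_or_lt with h | h
    · rw [← h, mul_zero]; exact norm_nonneg _
    · refine le_of_mul_le_mul_left ?_ h
      nlinarith [sq_nonneg ‖(T ^ N) x‖]
  · rw [hx]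
    refine (norm_add_le _ _).trans ?_
    rw [norm_smul, Complex.norm_real, Real.norm_of_nonneg hδ0.le]
    have h4 := hB.op x
    have h5 := norm_T_pow_le N x
    nlinarith [norm_nonneg x]

/-- wandering unit vectors -/
structure Wan (G : E) : Prop where
  norm : ‖G‖ = 1
  orth : ∀ n, ⟪G, (T ^ (n + 1)) G⟫_ℂ = 0

lemma wan_of_ker {M : Submodule ℂ E} (hM : Inv M) {G : E} (h : IsKer M G) : Wan G := by
  refine ⟨h.norm_eq, fun n => ?_⟩
  have h1 := h.repr _ (hM.aeval (X ^ (n + 1)) h.mem)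
  rw [aeval_X_pow, T_pow_apply_lt _ _ _ (Nat.succ_pos n)] at h1
  exact (mul_eq_zero.1 h1.symm).resolve_left (ker_zero_ne h)

lemma Wan.inner {G : E} (h : Wan G) (n : ℕ) (c : ℕ → ℂ) :
    ⟪G, ∑ j ∈ range (n + 1), c j • (T ^ j) G⟫_ℂ = c 0 := by
  rw [inner_sum, sum_range_succ', sum_eq_zero fun j _ => by rw [inner_smul_right, h.orth, mul_zero],
    inner_smul_right, pow_zero, one_apply_eq_self, inner_self_eq_norm_sq_to_K, h.norm]
  simp

lemma Wan.contr {G : E} (h : Wan G) (n : ℕ) : ∀ c : ℕ → ℂ,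
    ‖∑ j ∈ range n, c j • (T ^ j) G‖ ^ 2 ≤ ∑ j ∈ range n, ‖c j‖ ^ 2 := by
  induction n with
  | zero => simp
  | succ n ih =>
    intro c
    have h1 : ∑ j ∈ range n, c (j + 1) • (T ^ (j + 1)) G =
        T (∑ j ∈ range n, c (j + 1) • (T ^ j) G) := by
      rw [map_sum]
      exact sum_congr rfl fun j _ => by rw [map_smul, pow_succ', mul_apply_eq_comp]
    have h2 : ⟪c 0 • G, ∑ j ∈ range n, c (j + 1) • (T ^ (j + 1)) G⟫_ℂ = 0 := by
      rw [inner_smul_left, inner_sum, sum_eq_zero fun j _ => by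
        rw [inner_smul_right, h.orth, mul_zero], mul_zero]
    rw [sum_range_succ', sum_range_succ', pow_zero, one_apply_eq_self, add_comm, sq,
      norm_add_sq_eq_norm_sq_add_norm_sq_of_inner_eq_zero _ _ h2, norm_smul, h.norm, h1]
    have h3 := ih fun j => c (j + 1)
    have h4 := pow_le_pow_left₀ (norm_nonneg _)
      (norm_T_le (∑ j ∈ range n, c (j + 1) • (T ^ j) G)) 2
    nlinarith

lemma poly_apply (f : ℂ[X]) (j : ℕ) : aeval T f (e 0) j = f.coeff j * W 0 j := by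
  induction f using Polynomial.induction_on' with
  | add p q hp hq => rw [map_add, add_apply, lp.coeFn_add, Pi.add_apply, hp, hq, coeff_add, add_mul]
  | monomial n a =>
    rw [ae_mon, T_pow_e, smul_smul, lp.coeFn_smul, Pi.smul_apply, e_apply, coeff_monomial]
    rcases eq_or_ne j n with rfl | h
    · simp
    · simp [h, h.symm]

lemma low_le (f : ℂ[X]) {d m : ℕ} (h : d ≤ m) : ∑ j ∈ range (d + 1), ‖f.coeff j‖ ^ 2 ≤
    (2 * (√(m + 1) * ‖(T ^ m) (aeval T f (e 0))‖)) ^ 2 := by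
  have h1 := sum_le_hasSum (range (d + 1)) (fun _ _ => by positivity)
    (hasSum_pow m (aeval T f (e 0)))
  rw [mul_pow, mul_pow, Real.sq_sqrt (by positivity), ← mul_assoc]
  refine le_trans ?_ (mul_le_mul_of_nonneg_left h1 (by positivity))
  rw [mul_sum]
  refine sum_le_sum fun j hj => ?_
  have h2 : (j : ℝ) ≤ m := by exact_mod_cast (Nat.lt_succ_iff.1 (mem_range.1 hj)).trans h
  have h3 : (0 : ℝ) ≤ j := by positivity
  rw [poly_apply, norm_mul, mul_pow, Complex.norm_real, Real.norm_eq_abs, sq_abs, W_sq, W_sq]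
  have h4 : (2 : ℝ) ^ 2 * (m + 1) * ((j + 1) / (j + m + 1) * (‖f.coeff j‖ ^ 2 *
      ((((0 : ℕ) : ℝ) + 1) / ((0 : ℕ) + j + 1)))) = 4 * (m + 1) / (j + m + 1) * ‖f.coeff j‖ ^ 2 := by
    push_cast
    field_simp
    ring
  rw [h4]
  refine le_mul_of_one_le_left (by positivity) ?_
  rw [le_div_iff₀ (by positivity)]
  linarith

lemma high {d : ℕ} {D : E} (h : ∀ k ≤ d, D k = 0) (j : ℕ) : ∀ k ≤ d, (T ^ j) D k = 0 := by
  intro k hk
  rcases lt_or_ge k j with h' | h'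
  · exact T_pow_apply_lt _ _ _ h'
  · obtain ⟨i, rfl⟩ : ∃ i, k = i + j := ⟨k - j, by omega⟩
    rw [T_pow_apply_add, h i (by omega), mul_zero]

lemma approx {G : E} (hG : Wan G) {ε c : ℝ} (hε : 0 < ε) (hc : 0 < c) :
    ∃ (d : ℕ) (η : ℝ), 0 < η ∧ ∀ (P₀ D : E) (m : ℕ) (M : Submodule ℂ E) (G' : E), ‖P₀ - G‖ ≤ η →
      (∀ k ≤ d, D k = 0) → d ≤ m →
      (∀ f : ℂ[X], c * (√(m + 1) * ‖(T ^ m) (aeval T f (e 0))‖) ≤ ‖aeval T f (P₀ + D)‖) →
      ‖P₀ + D‖ ≤ 1 + ε → IsKer M G' → P₀ + D ∈ M → G' ∈ cyc (P₀ + D) →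
      1 ≤ (1 + ε) * (‖⟪G, G'⟫_ℂ‖ + ε) := by
  set η₀ := ε / 2 / (1 + 2 / c) with hη₀
  have h0 : 0 < η₀ := by positivity
  obtain ⟨d, R, hR, hRG⟩ := tail_tendsto G h0
  set η := ε / 2 / (2 / c * ((‖R‖ + 1) * (d + 1))) with hη
  refine ⟨d, η, by positivity, fun P₀ D m M G' h1 h2 h3 h4 h5 h6 h7 h8 => ?_⟩
  have hη0 : 0 < η := by positivity
  have hz : ∀ y : E, (∀ k ≤ d, y k = 0) → ⟪R, y⟫_ℂ = 0 := fun y hy =>
    inner_eq_zero_of_disjoint _ _ fun i => (lt_or_ge d i).imp (hR i) (hy i)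
  have key : ∀ f : ℂ[X], ‖⟪G, aeval T f (P₀ + D)⟫_ℂ - f.eval 0‖ ≤ ε * ‖aeval T f (P₀ + D)‖ := by
    intro f
    obtain ⟨g, hg⟩ : X ^ (d + 1) ∣ f - ∑ j ∈ range (d + 1), monomial j (f.coeff j) :=
      X_pow_dvd_iff.2 fun k hk => by simp [coeff_monomial, hk]
    have hf : ∀ y, aeval T f y = ∑ j ∈ range (d + 1), f.coeff j • (T ^ j) y +
        (T ^ (d + 1)) (aeval T g y) := fun y => by
      refine (congrArg (fun p => aeval T p y) (eq_add_of_sub_eq' hg)).trans ?_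
      simp only [map_add, add_apply, ae_mul, aeval_X_pow, map_sum, _root_.sum_apply, ae_mon]
    set L := 2 / c * ‖aeval T f (P₀ + D)‖ with hL
    have hL0 : 0 ≤ L := by positivity
    have hL1 : ∑ j ∈ range (d + 1), ‖f.coeff j‖ ^ 2 ≤ L ^ 2 := by
      refine (low_le f h3).trans (pow_le_pow_left₀ (by positivity) ?_ 2)
      rw [hL, div_mul_eq_mul_div, le_div_iff₀ hc]
      linarith [h4 f]
    have hL2 : ‖∑ j ∈ range (d + 1), f.coeff j • (T ^ j) G‖ ≤ L :=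
      (pow_le_pow_iff_left₀ (norm_nonneg _) hL0 two_ne_zero).1 ((hG.contr _ _).trans hL1)
    have hL3 : ‖∑ j ∈ range (d + 1), f.coeff j • (T ^ j) (P₀ - G)‖ ≤ (d + 1) * (L * η) := by
      refine (norm_sum_le_of_le _ (n := fun _ => L * η) fun j hj => ?_).trans_eq (by simp)
      rw [norm_smul]
      refine mul_le_mul ?_ ((norm_T_pow_le _ _).trans h1) (norm_nonneg _) hL0
      exact (pow_le_pow_iff_left₀ (norm_nonneg _) hL0 two_ne_zero).1
        ((single_le_sum (f := fun j => ‖f.coeff j‖ ^ 2) (fun _ _ => by positivity) hj).trans hL1)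
    have e1 : ⟪R, aeval T f (P₀ + D)⟫_ℂ = ⟪R, ∑ j ∈ range (d + 1), f.coeff j • (T ^ j) P₀⟫_ℂ := by
      rw [hf, inner_add_right, hz _ fun k hk => T_pow_apply_lt _ _ _ (Nat.lt_succ_of_le hk),
        add_zero, inner_sum, inner_sum]
      refine sum_congr rfl fun j _ => ?_
      rw [inner_smul_right, inner_smul_right, map_add, inner_add_right, hz _ (high h2 j), add_zero]
    have e2 : ⟪G, aeval T f (P₀ + D)⟫_ℂ - f.eval 0 = -⟪R - G, aeval T f (P₀ + D)⟫_ℂ +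
        ⟪R, ∑ j ∈ range (d + 1), f.coeff j • (T ^ j) (P₀ - G)⟫_ℂ +
        ⟪R - G, ∑ j ∈ range (d + 1), f.coeff j • (T ^ j) G⟫_ℂ := by
      simp only [map_sub, smul_sub, sum_sub_distrib, inner_sub_left, inner_sub_right]
      rw [e1, hG.inner, coeff_zero_eq_eval_zero]
      ring
    rw [e2]
    refine (norm_add₃_le).trans ?_
    rw [norm_neg]
    have b1 := (norm_inner_le_norm (𝕜 := ℂ) _ (aeval T f (P₀ + D))).trans
      (mul_le_mul_of_nonneg_right hRG (norm_nonneg _))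
    have b2 := (norm_inner_le_norm (𝕜 := ℂ) R _).trans
      (mul_le_mul (le_add_of_nonneg_right zero_le_one) hL3 (norm_nonneg _) (by positivity))
    have b3 := (norm_inner_le_norm (𝕜 := ℂ) _ _).trans (mul_le_mul hRG hL2 (norm_nonneg _) h0.le)
    refine (add_le_add (add_le_add b1 b2) b3).trans_eq ?_
    rw [hL, hη, hη₀]
    field_simp
    ring
  have h9 := cyc_ind (P := fun x => ‖⟪G, x⟫_ℂ * (P₀ + D) 0 - x 0‖ ≤ ‖(P₀ + D) 0‖ * (ε * ‖x‖))
    (isClosed_le (((continuous_const.inner continuous_id).mul continuous_const).sub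
      continuous_zero).norm (by fun_prop)) (fun f => by
      rw [aeval_zero_apply, ← sub_mul, norm_mul, mul_comm]
      exact mul_le_mul_of_nonneg_left (key f) (norm_nonneg _)) h8
  obtain ⟨r, hr, hr0⟩ := h6.pos
  have h10 : ‖(P₀ + D) 0‖ ≤ r * (1 + ε) := by
    rw [h6.repr _ h7, hr0, norm_mul, Complex.norm_real, Real.norm_of_nonneg hr.le]
    refine mul_le_mul_of_nonneg_left ((norm_inner_le_norm _ _).trans ?_) hr.le
    rwa [h6.norm_eq, one_mul]
  have h11 := norm_sub_norm_le (G' 0) (⟪G, G'⟫_ℂ * (P₀ + D) 0)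
  rw [norm_sub_rev, norm_mul, hr0, Complex.norm_real, Real.norm_of_nonneg hr.le] at h11
  rw [h6.norm_eq, mul_one, hr0] at h9
  refine le_of_mul_le_mul_left ?_ hr
  nlinarith [mul_le_mul_of_nonneg_right h10 (add_nonneg (norm_nonneg ⟪G, G'⟫_ℂ) hε.le)]

end Pool.Agent.P.MP_d05361_an.C
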