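import Pool.Agent.P.MP_d05361_an.C.Mod

/-
Domination for finite zero sets.
-/

set_option autoImplicit false

namespace Pool.Agent.P.MP_d05361_an.C

open scoped ENNReal InnerProductSpace ComplexConjugate ComplexOrder Classical
open Finset Filter Topology Metric Polynomial

/-- the functions that vanish on `Z` -/
def zs (Z : Finset ℂ) : Submodule ℂ E where
  carrier := {x | ∀ l ∈ Z, l ∈ ball (0 : ℂ) 1 → Phi x l = 0}
  add_mem' hx hy l hl hb := by rw [Phi_add _ _ hb, hx l hl hb, hy l hl hb, add_zero]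
  zero_mem' l _ _ := Phi_zero l
  smul_mem' c x hx l hl hb := by rw [Phi_smul, hx l hl hb, mul_zero]

lemma zs_insert (Z : Finset ℂ) {l : ℂ} (hl : l ∈ ball (0 : ℂ) 1) :
    zs (insert l Z) = van (zs Z) l hl := by
  ext x
  refine ⟨fun h => ⟨fun a ha => h a (mem_insert_of_mem ha), h l (mem_insert_self _ _) hl⟩,
    fun h a ha hb => ?_⟩
  rcases mem_insert.1 ha with rfl | ha
  · exact h.2
  · exact h.1 a ha hb

lemma zs_empty : zs ∅ = ⊤ := eq_top_iff.2 fun _ _ _ h => absurd h (notMem_empty _)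

lemma inv_zs (Z : Finset ℂ) : Inv (zs Z) := by
  refine ⟨?_, fun x hx l hl hb => by rw [Phi_T _ hb, hx l hl hb, mul_zero]⟩
  have : (zs Z : Set E) = ⋂ l ∈ Z, ⋂ _ : l ∈ ball (0 : ℂ) 1, {x | Phi x l = 0} := by
    ext x
    simp only [Set.mem_iInter]
    rfl
  rw [this]
  exact isClosed_biInter fun l _ => isClosed_iInter fun hb =>
    isClosed_eq (continuous_Phi hb) continuous_const

/-- the monic polynomial with zero set `Z` -/
noncomputable def pz (Z : Finset ℂ) : ℂ[X] := ∏ l ∈ Z, (X - C l)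

lemma eval_pz (Z : Finset ℂ) (z : ℂ) : (pz Z).eval z = 0 ↔ z ∈ Z := by
  simp [pz, eval_prod, prod_eq_zero_iff, sub_eq_zero]

lemma Phi_poly (p : ℂ[X]) {z : ℂ} (hz : z ∈ ball (0 : ℂ) 1) :
    Phi (aeval T p (e 0)) z = p.eval z := by rw [Phi_aeval _ _ hz, Phi_e_zero, mul_one]

lemma pz_mem (Z : Finset ℂ) : aeval T (pz Z) (e 0) ∈ zs Z := fun l hl hb => by
  rw [Phi_poly _ hb, eval_pz]; exact hl

lemma exists_ker_zs {Z : Finset ℂ} (h : (0 : ℂ) ∉ Z) : ∃ G, IsKer (zs Z) G :=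
  exists_isKer (inv_zs Z).closed (pz_mem Z) (by
    rw [← Phi_zero_apply, Phi_poly _ zero_mem_ball, ne_eq, eval_pz]; exact h)

lemma rk_ne {Z : Finset ℂ} {k : ℂ → E} (h : IsRK (zs Z) k) {z : ℂ} (hz : z ∈ ball (0 : ℂ) 1)
    (h0 : z ∉ Z) : ⟪k z, k z⟫_ℂ ≠ 0 :=
  h.ne hz (pz_mem Z) (by rw [Phi_poly _ hz, ne_eq, eval_pz]; exact h0)

/-- the points of the disc outside `Z` -/
abbrev Out (Z : Finset ℂ) : Type := {z : ℂ // z ∈ ball (0 : ℂ) 1 ∧ z ∉ Z}

lemma good_step {Z : Finset ℂ} {k : ℂ → E} (h : IsRK (zs Z) k)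
    (hg : Good fun z w : Out Z => ⟪k z, k w⟫_ℂ) {l : ℂ} (hl : l ∈ ball (0 : ℂ) 1) (hZ : l ∉ Z) :
    ∃ k', IsRK (zs (insert l Z)) k' ∧ Good (fun z w : Out (insert l Z) => ⟪k' z, k' w⟫_ℂ) ∧
      ∀ o : Out (insert l Z), PS fun z w : Out (insert l Z) =>
        ⟪k' z, k' o⟫_ℂ * ⟪k' o, k' w⟫_ℂ / ⟪k' o, k' o⟫_ℂ * ⟪k z, k w⟫_ℂ -
          ⟪k z, k o⟫_ℂ * ⟪k o, k w⟫_ℂ / ⟪k o, k o⟫_ℂ * ⟪k' z, k' w⟫_ℂ := by
  obtain ⟨k', h1, h2⟩ := h.van hl (rk_ne h hl hZ)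
  rw [← zs_insert] at h1
  have h3 : ∀ z w : Out (insert l Z), ⟪k' z, k' w⟫_ℂ = cut (fun z w => ⟪k z, k w⟫_ℂ) l z w :=
    fun z w => h2 _ z.2.1 _ w.2.1
  obtain ⟨h4, h5⟩ := hg.step ⟨l, hl, hZ⟩
    (fun z : Out (insert l Z) => ⟨z.1, z.2.1, fun hz => z.2.2 (mem_insert_of_mem hz)⟩)
    fun z => (h3 z z).symm.trans_ne (rk_ne h1 z.2.1 z.2.2)
  refine ⟨k', h1, ?_, fun o => ?_⟩
  · simp only [h3]; exact h4
  · simp only [h3]; exact h5 o

lemma good_zs (Z : Finset ℂ) (hZ : ∀ l ∈ Z, l ∈ ball (0 : ℂ) 1) :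
    ∃ k, IsRK (zs Z) k ∧ Good fun z w : Out Z => ⟪k z, k w⟫_ℂ := by
  induction Z using Finset.induction_on with
  | empty =>
    obtain ⟨k, h1, h2⟩ := exists_kap
    refine ⟨k, zs_empty ▸ h1, ?_⟩
    simp only [fun z w : Out ∅ => h2 _ z.2.1 _ w.2.1]
    exact good_bergman _ fun z => mem_ball_zero_iff.1 z.2.1
  | insert l Z hl ih =>
    obtain ⟨k, h1, h2⟩ := ih fun a ha => hZ a (mem_insert_of_mem ha)
    obtain ⟨k', h3, h4, -⟩ := good_step h1 h2 (hZ l (mem_insert_self _ _)) hl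
    exact ⟨k', h3, h4⟩

/-- domination -/
def Dom (G G' : E) : Prop := ∀ h : ℂ[X], ‖aeval T h G‖ ≤ ‖aeval T h G'‖

lemma ker_ne {M : Submodule ℂ E} {G : E} (h : IsKer M G) : G ≠ 0 :=
  norm_ne_zero_iff.1 (by rw [h.norm_eq]; exact one_ne_zero)

lemma ker_zero_ne {M : Submodule ℂ E} {G : E} (h : IsKer M G) : G 0 ≠ 0 := by
  obtain ⟨r, hr, h0⟩ := h.pos
  rw [h0]
  exact Complex.ofReal_ne_zero.2 hr.ne'

lemma ker_unique {M : Submodule ℂ E} {G G' : E} (h : IsKer M G) (h' : IsKer M G') : G = G' := by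
  obtain ⟨r, hr, h0⟩ := h.pos
  obtain ⟨r', hr', h0'⟩ := h'.pos
  have h1 : (r : ℂ) • G = (r' : ℂ) • G' := by
    have hm := M.sub_mem (M.smul_mem (r : ℂ) h.mem) (M.smul_mem (r' : ℂ) h'.mem)
    rw [← sub_eq_zero, ← inner_self_eq_zero (𝕜 := ℂ), inner_sub_left, inner_smul_left,
      inner_smul_left, Complex.conj_ofReal, Complex.conj_ofReal]
    have e1 := h.repr _ hm
    have e2 := h'.repr _ hm
    rw [h0] at e1
    rw [h0'] at e2
    rw [← e1, ← e2, sub_self]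
  have h2 := congrArg norm h1
  rw [norm_smul, norm_smul, h.norm_eq, h'.norm_eq, Complex.norm_real, Complex.norm_real,
    Real.norm_of_nonneg hr.le, Real.norm_of_nonneg hr'.le, mul_one, mul_one] at h2
  rw [← h2] at h1
  exact smul_right_injective E (by exact_mod_cast hr.ne') h1

lemma dom_step {Z : Finset ℂ} (hZ : ∀ l ∈ Z, l ∈ ball (0 : ℂ) 1) {l : ℂ}
    (hl : l ∈ ball (0 : ℂ) 1) (hlZ : l ∉ Z) (h0 : (0 : ℂ) ∉ insert l Z) {G G' : E}
    (hG : IsKer (zs Z) G) (hG' : IsKer (zs (insert l Z)) G') : Dom G G' := by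
  intro h
  obtain ⟨k, h1, h2⟩ := good_zs Z hZ
  obtain ⟨k', h3, -, h4⟩ := good_step h1 h2 hl hlZ
  refine conv (inv_zs Z).closed h1 h3 (fun z : Out (insert l Z) => z.1) (fun z => z.2.1)
    (fun z => Phi G z) (fun z => Phi G' z) ((h4 ⟨0, zero_mem_ball, h0⟩).congr fun z w => ?_)
    (fun x _ hx => Phi_mul_eq_zero (ker_ne hG') fun z hz => ?_) ((inv_zs _).aeval h hG.mem)
    ((inv_zs _).aeval h hG'.mem) fun z => ?_
  · rw [h1.ker hG z.2.1 w.2.1, h3.ker hG' z.2.1 w.2.1]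
  · by_cases hz' : z ∈ insert l Z
    · rw [hG'.mem z hz' hz, zero_mul]
    · exact hx ⟨z, hz, hz'⟩
  · rw [Phi_aeval _ _ z.2.1, Phi_aeval _ _ z.2.1]; ring

theorem dom_zs {Z : Finset ℂ} (hZ : ∀ l ∈ Z, l ∈ ball (0 : ℂ) 1 ∧ l ≠ 0) {G : E}
    (hG : IsKer (zs Z) G) (S : Finset ℂ) (hS : ∀ l ∈ S, l ∈ ball (0 : ℂ) 1 ∧ l ≠ 0) :
    ∀ G', IsKer (zs (S ∪ Z)) G' → Dom G G' := by
  induction S using Finset.induction_on with
  | empty =>
    intro G' hG'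
    rw [empty_union] at hG'
    rw [ker_unique hG hG']
    exact fun _ => le_rfl
  | insert l S _ ih =>
    intro G' hG'
    have ih' := ih fun a ha => hS a (mem_insert_of_mem ha)
    rw [insert_union] at hG'
    by_cases hl : l ∈ S ∪ Z
    · rw [insert_eq_of_mem hl] at hG'
      exact ih' G' hG'
    have h1 : ∀ a ∈ S ∪ Z, a ∈ ball (0 : ℂ) 1 ∧ a ≠ 0 := fun a ha =>
      (mem_union.1 ha).elim (fun h => hS a (mem_insert_of_mem h)) (hZ a)
    have h2 := hS l (mem_insert_self _ _)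
    obtain ⟨G₁, hG₁⟩ := exists_ker_zs (Z := S ∪ Z) fun h => (h1 0 h).2 rfl
    have h3 := dom_step (fun a ha => (h1 a ha).1) h2.1 hl (fun h =>
      (mem_insert.1 h).elim (fun e => h2.2 e.symm) fun h => (h1 0 h).2 rfl) hG₁ hG'
    exact fun h => (ih' G₁ hG₁ h).trans (h3 h)

lemma van_cyc {a : E} {l : ℂ} (hl : l ∈ ball (0 : ℂ) 1) (ha : Phi a l ≠ 0) :
    van (cyc a) l hl ≤ cyc (aeval T (X - C l) a) := by
  rintro x ⟨hx, h0⟩
  obtain ⟨p, hp⟩ := exists_seq hx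
  have h1 := ((continuous_Phi hl).tendsto x).comp hp
  have h2 : Tendsto (fun n => (p n).eval l) atTop (𝓝 0) := by
    have h3 := h1.div_const (Phi a l)
    rw [h0, zero_div] at h3
    refine h3.congr fun n => ?_
    rw [Function.comp_apply, Phi_aeval _ _ hl, mul_div_cancel_right₀ _ ha]
  have h3 := hp.sub (h2.smul_const a)
  rw [zero_smul, sub_zero] at h3
  refine (inv_cyc _).closed.mem_of_tendsto h3 (Eventually.of_forall fun n => ?_)
  have h4 := aeval_mem_cyc (aeval T (X - C l) a) (p n /ₘ (X - C l))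
  have h5 : p n /ₘ (X - C l) * (X - C l) = p n - C ((p n).eval l) := by
    rw [← modByMonic_X_sub_C_eq_C_eval, eq_sub_iff_add_eq, add_comm, mul_comm, modByMonic_add_div]
  rwa [← mul_apply_eq_comp, ← map_mul, h5, map_sub (aeval T) (p n), aeval_C,
    Algebra.algebraMap_eq_smul_one] at h4

lemma T_pow_e (n : ℕ) : (T ^ n) (e 0) = (W 0 n : ℂ) • e n := by
  refine lp.ext (funext fun i => ?_)
  rw [lp.coeFn_smul, Pi.smul_apply, e_apply]
  rcases lt_or_ge i n with h | h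
  · rw [T_pow_apply_lt _ _ _ h, if_neg h.ne, smul_zero]
  · obtain ⟨j, rfl⟩ : ∃ j, i = j + n := ⟨i - n, by omega⟩
    rw [T_pow_apply_add, e_apply]
    rcases eq_or_ne j 0 with rfl | hj
    · simp
    · simp [hj]

lemma mem_cyc_e (x : E) : x ∈ cyc (e 0) := by
  refine (inv_cyc _).closed.mem_of_tendsto (lp.hasSum_single (p := 2) (by norm_num) x)
    (Eventually.of_forall fun s => sum_mem fun n _ => ?_)
  have h1 := (cyc (e 0)).smul_mem (x n / W 0 n) (aeval_mem_cyc (e 0) (X ^ n))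
  have h2 : (W 0 n : ℂ) ≠ 0 := by exact_mod_cast (W_pos 0 n).ne'
  have h3 : x n • e n = lp.single 2 n (x n) := by
    rw [e, ← lp.single_smul, smul_eq_mul, mul_one]
  rwa [aeval_X_pow, T_pow_e, smul_smul, div_mul_cancel₀ _ h2, h3] at h1

lemma zs_le_cyc (Z : Finset ℂ) (hZ : ∀ l ∈ Z, l ∈ ball (0 : ℂ) 1) :
    zs Z ≤ cyc (aeval T (pz Z) (e 0)) := by
  induction Z using Finset.induction_on with
  | empty => exact fun x _ => by simpa [pz] using mem_cyc_e x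
  | insert l Z hl ih =>
    have hb := hZ l (mem_insert_self _ _)
    rw [zs_insert Z hb, pz, prod_insert hl, map_mul, mul_apply_eq_comp]
    refine fun x hx => van_cyc hb ?_ ⟨ih (fun a ha => hZ a (mem_insert_of_mem ha)) hx.1, hx.2⟩
    rw [Phi_poly _ hb]
    exact fun h => hl ((eval_pz Z l).1 h)

lemma one_cyc {G : E} (h : G 0 ≠ 0) : One (cyc G) := by
  intro x hx h0
  have h1 := van_cyc zero_mem_ball (by rwa [Phi_zero_apply]) ⟨hx, by rwa [Phi_zero_apply]⟩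
  obtain ⟨y, hy, rfl⟩ := cyc_ind (P := fun x => x ∈ T '' (cyc G : Set E))
    (isClosed_map (inv_cyc G).closed) (fun p => ⟨_, aeval_mem_cyc G p, by
      rw [C_0, sub_zero, ← mul_apply_eq_comp (aeval T p), ← map_mul, mul_comm, map_mul, aeval_X]
      rfl⟩) h1
  exact ⟨y, hy, rfl⟩

end Pool.Agent.P.MP_d05361_an.C
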